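import Pool.Agent.Helper71.Neg.Base

/-!
# From circuits given by wires to circuits with levels
-/

set_option autoImplicit false

namespace Pool.Agent.Helper71.Neg

open Finset

/-- Circuits given by wires: gate `i` computes `f i`, it reads the gates in `ins i`, and the gates
in `A` are arbitrary. -/
structure Wired {n : ℕ} (S : ℕ) (f : ℕ → SimpleGraph (Fin n) → Prop) (ins : ℕ → Finset ℕ)
    (A : Finset ℕ) : Prop where
  lt : ∀ i < S, ∀ j ∈ ins i, j < i
  mono : ∀ i < S, i ∉ A →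
    (∃ b : Prop, ∀ G, f i G ↔ b) ∨ (∃ u v, ∀ G, f i G ↔ G.Adj u v) ∨
    (∃ j ∈ ins i, ∃ k ∈ ins i,
      ((∀ G, f i G ↔ (f j G ∧ f k G)) ∨ (∀ G, f i G ↔ (f j G ∨ f k G))))
  any : ∀ i < S, i ∈ A → ∀ G G', (∀ j ∈ ins i, (f j G ↔ f j G')) → (f i G ↔ f i G')

section

variable {n S : ℕ} {f : ℕ → SimpleGraph (Fin n) → Prop} {ins : ℕ → Finset ℕ} {A : Finset ℕ}

lemma Wired.circ (h : Wired S f ins A) {lev : ℕ → ℕ}
    (hlev : ∀ i < S, ∀ j ∈ ins i, lev j ≤ lev i ∧ (i ∈ A → lev j < lev i)) :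
    Circ (fun (e : Fin n × Fin n) (G : SimpleGraph (Fin n)) => G.Adj e.1 e.2) S f lev
      (A.filter (fun i => i < S)) ins := by
  refine ⟨fun i hi hA => ?_, fun i hi hA => ?_⟩
  · have hA' : i ∉ A := fun h1 => hA (mem_filter.2 ⟨h1, hi⟩)
    rcases h.mono i hi hA' with ⟨b, hb⟩ | ⟨u, v, huv⟩ | ⟨j, hj, k, hk, hjk⟩
    · exact Or.inl ⟨b, hb⟩
    · exact Or.inr (Or.inl ⟨(u, v), huv⟩)
    · exact Or.inr (Or.inr ⟨j, h.lt i hi j hj, k, h.lt i hi k hk, (hlev i hi j hj).1,
        (hlev i hi k hk).1, hjk⟩)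
  · have hA' := (mem_filter.1 hA).1
    exact ⟨fun j hj => ⟨h.lt i hi j hj, (hlev i hi j hj).2 hA'⟩, h.any i hi hA'⟩

/-- The level of a gate: the number of arbitrary gates up to this gate. -/
def alev (A : Finset ℕ) (i : ℕ) : ℕ := (A.filter (fun j => j ≤ i)).card

lemma alev_le (A : Finset ℕ) {i j : ℕ} (h : j ≤ i) : alev A j ≤ alev A i :=
  card_le_card (fun x hx => mem_filter.2 ⟨(mem_filter.1 hx).1, (mem_filter.1 hx).2.trans h⟩)

lemma alev_lt {A : Finset ℕ} {i j : ℕ} (hi : i ∈ A) (h : j < i) : alev A j < alev A i := by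
  apply card_lt_card
  refine (ssubset_iff_of_subset (fun x hx => mem_filter.2 ⟨(mem_filter.1 hx).1,
    ((mem_filter.1 hx).2.trans h.le)⟩)).2 ⟨i, mem_filter.2 ⟨hi, le_rfl⟩, fun h1 => ?_⟩
  have := (mem_filter.1 h1).2
  omega

lemma alev_bound {T : ℕ} (hT : (A.filter (fun i => i < S)).card ≤ T) {i : ℕ} (hi : i < S) :
    alev A i ≤ T := by
  refine le_trans (card_le_card (fun x hx => ?_)) hT
  have := mem_filter.1 hx
  exact mem_filter.2 ⟨this.1, by omega⟩

lemma Wired.alevels (h : Wired S f ins A) :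
    ∀ i < S, ∀ j ∈ ins i, alev A j ≤ alev A i ∧ (i ∈ A → alev A j < alev A i) := by
  intro i hi j hj
  have h1 := h.lt i hi j hj
  exact ⟨alev_le A h1.le, fun hA => alev_lt hA h1⟩

lemma reads_alev {a : ℕ} (ha : ∀ i < S, i ∈ A → (ins i).card ≤ a) (m : ℕ) :
    (reads (alev A) (A.filter (fun i => i < S)) ins m).card ≤ a := by
  unfold reads
  rcases ((A.filter (fun i => i < S)).filter (fun i => alev A i = m)).eq_empty_or_nonempty with
    h | ⟨i, hi⟩
  · rw [h]
    simp
  · have h1 : (A.filter (fun i => i < S)).filter (fun i => alev A i = m) = {i} := by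
      ext j
      rw [mem_singleton]
      constructor
      · intro hj
        rw [mem_filter, mem_filter] at hi hj
        rcases Nat.lt_trichotomy j i with h2 | h2 | h2
        · have := alev_lt hi.1.1 h2
          omega
        · exact h2
        · have := alev_lt hj.1.1 h2
          omega
      · rintro rfl
        exact hi
    rw [h1, singleton_biUnion]
    rw [mem_filter, mem_filter] at hi
    exact ha i hi.1.2 hi.1.1

/-- Only the levels `1, …, t` matter. -/
lemma reads_le {lev : ℕ → ℕ} {t : ℕ} {r : ℕ → ℕ} (hlev : ∀ i < S, lev i ≤ t)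
    (hr : ∀ m, 1 ≤ m → m ≤ t →
      ((A.filter (fun i => i < S ∧ lev i = m)).biUnion ins).card ≤ r m) (m : ℕ) (hm : 1 ≤ m) :
    (reads lev (A.filter (fun i => i < S)) ins m).card ≤ r m := by
  have h1 : reads lev (A.filter (fun i => i < S)) ins m =
      (A.filter (fun i => i < S ∧ lev i = m)).biUnion ins := by
    unfold reads
    rw [filter_filter]
  rw [h1]
  rcases Nat.lt_or_ge t m with h | h
  · have h2 : A.filter (fun i => i < S ∧ lev i = m) = ∅ := by
      apply filter_eq_empty_iff.2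
      rintro i _ ⟨h3, h4⟩
      have := hlev i h3
      omega
    rw [h2]
    simp
  · exact hr m hm h

end

end Pool.Agent.Helper71.Neg
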