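import Pool.Agent.Helper71.Neg.Defs

/-!
# Circuits with negation levels: counting, monotonicity, restriction
-/

set_option autoImplicit false

namespace Pool.Agent.Helper71.Neg

open Finset

/-! ## Counting -/

section cnt

variable {Ω Ω' : Type} [Fintype Ω] [Fintype Ω']

lemma cnt_eq (P : Ω → Prop) [DecidablePred P] : cnt P = (univ.filter P).card := by
  unfold cnt
  congr

lemma cnt_le_card (P : Ω → Prop) : cnt P ≤ Fintype.card Ω := by
  classical
  rw [cnt_eq]
  exact card_filter_le _ _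

lemma cnt_le_cnt {P Q : Ω → Prop} (h : ∀ ω, P ω → Q ω) : cnt P ≤ cnt Q := by
  classical
  rw [cnt_eq, cnt_eq]
  exact card_le_card (fun ω hω => by
    rw [mem_filter] at hω ⊢
    exact ⟨hω.1, h ω hω.2⟩)

lemma cnt_congr' {P Q : Ω → Prop} (h : ∀ ω, P ω ↔ Q ω) : cnt P = cnt Q :=
  le_antisymm (cnt_le_cnt fun ω => (h ω).1) (cnt_le_cnt fun ω => (h ω).2)

lemma cnt_true' {P : Ω → Prop} (h : ∀ ω, P ω) : cnt P = Fintype.card Ω := by
  classical
  rw [cnt_eq, filter_true_of_mem (fun ω _ => h ω), card_univ]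

lemma cnt_false' {P : Ω → Prop} (h : ∀ ω, ¬ P ω) : cnt P = 0 := by
  classical
  rw [cnt_eq, card_eq_zero, filter_eq_empty_iff]
  exact fun ω _ => h ω

lemma cnt_eq_sum (P : Ω → Prop) [DecidablePred P] : cnt P = ∑ ω, if P ω then 1 else 0 := by
  rw [cnt_eq, card_filter]

lemma cnt_add_not (P : Ω → Prop) : cnt P + cnt (fun ω => ¬ P ω) = Fintype.card Ω := by
  classical
  rw [cnt_eq, cnt_eq, ← card_univ]
  exact card_filter_add_card_filter_not _

lemma cnt_or_le (P Q : Ω → Prop) : cnt (fun ω => P ω ∨ Q ω) ≤ cnt P + cnt Q := by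
  classical
  rw [cnt_eq, cnt_eq, cnt_eq, filter_or]
  exact card_union_le _ _

lemma cnt_fiber (P : Ω × Ω' → Prop) : cnt P = ∑ ω, cnt (fun ω' => P (ω, ω')) := by
  classical
  rw [cnt_eq_sum, Fintype.sum_prod_type]
  exact sum_congr rfl (fun ω _ => (cnt_eq_sum _).symm)

lemma cnt_and_prod (P : Ω → Prop) (Q : Ω' → Prop) :
    cnt (fun p : Ω × Ω' => P p.1 ∧ Q p.2) = cnt P * cnt Q := by
  classical
  rw [cnt_eq, cnt_eq, cnt_eq, ← univ_product_univ, filter_product, card_product]

lemma cnt_fst (P : Ω → Prop) : cnt (fun p : Ω × Ω' => P p.1) = cnt P * Fintype.card Ω' := by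
  have := cnt_and_prod (Ω' := Ω') P (fun _ => True)
  rw [cnt_true' (P := fun _ : Ω' => True) (fun _ => trivial)] at this
  rw [← this]
  exact cnt_congr' (fun ω => by simp)

lemma cnt_snd (P : Ω' → Prop) : cnt (fun p : Ω × Ω' => P p.2) = Fintype.card Ω * cnt P := by
  have := cnt_and_prod (Ω := Ω) (fun _ => True) P
  rw [cnt_true' (P := fun _ : Ω => True) (fun _ => trivial)] at this
  rw [← this]
  exact cnt_congr' (fun ω => by simp)

lemma cnt_equiv (e : Ω ≃ Ω') (P : Ω' → Prop) : cnt (fun ω => P (e ω)) = cnt P := by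
  classical
  rw [cnt_eq_sum, cnt_eq_sum]
  exact Fintype.sum_equiv e _ _ (fun ω => rfl)

/-- Functions with prescribed values on `F`. -/
lemma cnt_prescribed {I : Type} [Fintype I] [DecidableEq I] (g : ℕ) (F : Finset I)
    (v : I → Fin g) :
    g ^ F.card * cnt (fun z : I → Fin g => ∀ i ∈ F, z i = v i) = g ^ Fintype.card I := by
  classical
  have h1 : cnt (fun z : I → Fin g => ∀ i ∈ F, z i = v i) =
      (Fintype.piFinset (fun i => if i ∈ F then {v i} else (univ : Finset (Fin g)))).card := by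
    rw [cnt_eq]
    congr 1
    ext z
    rw [mem_filter, Fintype.mem_piFinset]
    constructor
    · intro h i
      by_cases hi : i ∈ F
      · rw [if_pos hi, mem_singleton]
        exact h.2 i hi
      · rw [if_neg hi]
        exact mem_univ _
    · intro h
      refine ⟨mem_univ _, fun i hi => ?_⟩
      have := h i
      rw [if_pos hi, mem_singleton] at this
      exact this
  rw [h1, Fintype.card_piFinset]
  have h2 : ∏ i, (if i ∈ F then ({v i} : Finset (Fin g)) else univ).card =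
      ∏ i, (if i ∈ F then 1 else g) := by
    refine prod_congr rfl (fun i _ => ?_)
    by_cases hi : i ∈ F
    · rw [if_pos hi, if_pos hi, card_singleton]
    · rw [if_neg hi, if_neg hi, card_univ, Fintype.card_fin]
  rw [h2, prod_ite, prod_const_one, one_mul, prod_const, ← pow_add, ← card_univ]
  congr 1
  rw [← card_filter_add_card_filter_not (s := (univ : Finset I)) (p := fun i => i ∈ F)]
  congr 1
  congr 1
  ext i
  simp

end cnt

/-! ## Circuits -/

/-- A gate of level `0` is monotone. -/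
lemma Circ.mono {E : Type} {S : ℕ} {f : ℕ → Finset E → Prop} {lev : ℕ → ℕ} {A : Finset ℕ}
    {inp : ℕ → Finset ℕ} (h : Circ mem S f lev A inp) : ∀ i, i < S → lev i = 0 →
      ∀ G G' : Finset E, G ⊆ G' → f i G → f i G' := by
  intro i
  induction i using Nat.strong_induction_on with
  | _ i ih =>
    intro hi h0 G G' hG hf
    by_cases hn : i ∈ A
    · obtain ⟨h1, h2⟩ := h.any i hi hn
      have h3 : inp i = ∅ := by
        rw [eq_empty_iff_forall_notMem]
        intro j hj
        have := (h1 j hj).2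
        omega
      exact (h2 G G' (by simp [h3])).1 hf
    · rcases h.gate i hi hn with ⟨b, hb⟩ | ⟨e, he⟩ | ⟨j, hj, k, hk, hlj, hlk, hjk⟩
      · exact (hb G').2 ((hb G).1 hf)
      · exact (he G').2 (hG ((he G).1 hf))
      · have h1 := ih j hj (by omega) (by omega) G G' hG
        have h2 := ih k hk (by omega) (by omega) G G' hG
        rcases hjk with hjk | hjk
        · exact (hjk G').2 ⟨h1 ((hjk G).1 hf).1, h2 ((hjk G).1 hf).2⟩
        · exact (hjk G').2 (((hjk G).1 hf).imp h1 h2)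

/-- The gates of level `0` form a monotone circuit. -/
lemma Circ.level_zero {Γ ι : Type} {x : ι → Γ → Prop} {S : ℕ} {f : ℕ → Γ → Prop} {lev : ℕ → ℕ}
    {A : Finset ℕ} {inp : ℕ → Finset ℕ} (h : Circ x S f lev A inp) {j : ℕ} (hj : j < S)
    (hj0 : lev j = 0) :
    (∃ b : Prop, ∀ G, f j G ↔ b) ∨ (∃ e, ∀ G, f j G ↔ x e G) ∨
    (∃ a < j, ∃ b < j, lev a = 0 ∧ lev b = 0 ∧
      ((∀ G, f j G ↔ (f a G ∧ f b G)) ∨ (∀ G, f j G ↔ (f a G ∨ f b G)))) := by
  by_cases hn : j ∈ A
  · obtain ⟨h1, h2⟩ := h.any j hj hn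
    have h3 : inp j = ∅ := by
      rw [eq_empty_iff_forall_notMem]
      intro i hi
      have := (h1 i hi).2
      omega
    by_cases hex : ∃ G, f j G
    · obtain ⟨G₀, hG₀⟩ := hex
      exact Or.inl ⟨True, fun G => by
        rw [iff_true]
        exact (h2 G₀ G (by simp [h3])).1 hG₀⟩
    · exact Or.inl ⟨False, fun G => by
        rw [iff_false]
        exact fun h => hex ⟨G, h⟩⟩
  · rcases h.gate j hj hn with h | h | ⟨a, ha, b, hb, hla, hlb, hab⟩
    · exact Or.inl h
    · exact Or.inr (Or.inl h)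
    · exact Or.inr (Or.inr ⟨a, ha, b, hb, by omega, by omega, hab⟩)

/-- Restriction of a circuit along a map of instances that sends each input to a constant or to an
input. -/
lemma Circ.restrict {Γ Γ' ι ι' : Type} {x : ι → Γ → Prop} {x' : ι' → Γ' → Prop} {S : ℕ}
    {f : ℕ → Γ → Prop} {lev : ℕ → ℕ} {A : Finset ℕ} {inp : ℕ → Finset ℕ}
    (h : Circ x S f lev A inp) (R : Γ' → Γ)
    (hR : ∀ e, (∃ b : Prop, ∀ G', x e (R G') ↔ b) ∨ (∃ e', ∀ G', x e (R G') ↔ x' e' G')) :
    Circ x' S (fun i G' => f i (R G')) lev A inp := by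
  constructor
  · intro i hi hn
    rcases h.gate i hi hn with ⟨b, hb⟩ | ⟨e, he⟩ | ⟨j, hj, k, hk, hlj, hlk, hjk⟩
    · exact Or.inl ⟨b, fun G' => hb _⟩
    · rcases hR e with ⟨b, hb⟩ | ⟨e', he'⟩
      · exact Or.inl ⟨b, fun G' => (he _).trans (hb G')⟩
      · exact Or.inr (Or.inl ⟨e', fun G' => (he _).trans (he' G')⟩)
    · refine Or.inr (Or.inr ⟨j, hj, k, hk, hlj, hlk, ?_⟩)
      exact hjk.imp (fun h' G' => h' _) (fun h' G' => h' _)
  · intro i hi hn
    obtain ⟨h1, h2⟩ := h.any i hi hn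
    exact ⟨h1, fun G G' hG => h2 _ _ hG⟩

/-- If the arbitrary gates of level `1` are constant, the levels drop by one. -/
lemma Circ.shift {Γ ι : Type} {x : ι → Γ → Prop} {S : ℕ} {f : ℕ → Γ → Prop} {lev : ℕ → ℕ}
    {A : Finset ℕ} {inp : ℕ → Finset ℕ} (h : Circ x S f lev A inp)
    (hc : ∀ i < S, i ∈ A → lev i = 1 → ∃ b : Prop, ∀ G, f i G ↔ b) :
    Circ x S f (fun i => lev i - 1) (A.filter (fun i => 2 ≤ lev i)) inp := by
  constructor
  · intro i hi hn
    by_cases hin : i ∈ A
    · by_cases h0 : lev i = 0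
      · rcases h.level_zero hi h0 with h | h | ⟨a, ha, b, hb, hla, hlb, hab⟩
        · exact Or.inl h
        · exact Or.inr (Or.inl h)
        · exact Or.inr (Or.inr ⟨a, ha, b, hb, by simp [hla], by simp [hlb], hab⟩)
      · have : lev i = 1 := by
          by_contra hne
          exact hn (mem_filter.2 ⟨hin, by omega⟩)
        exact Or.inl (hc i hi hin this)
    · rcases h.gate i hi hin with hb | he | ⟨j, hj, k, hk, hlj, hlk, hjk⟩
      · exact Or.inl hb
      · exact Or.inr (Or.inl he)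
      · exact Or.inr (Or.inr ⟨j, hj, k, hk, Nat.sub_le_sub_right hlj 1,
          Nat.sub_le_sub_right hlk 1, hjk⟩)
  · intro i hi hn
    rw [mem_filter] at hn
    obtain ⟨h1, h2⟩ := h.any i hi hn.1
    refine ⟨fun j hj => ⟨(h1 j hj).1, ?_⟩, h2⟩
    have := (h1 j hj).2
    show lev j - 1 < lev i - 1
    omega

/-- Adding a fixed set and mapping by an injection restricts circuits on subsets to circuits. -/
lemma Circ.image {E E' : Type} [DecidableEq E] {S : ℕ} {f : ℕ → Finset E → Prop} {lev : ℕ → ℕ}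
    {A : Finset ℕ} {inp : ℕ → Finset ℕ} (h : Circ mem S f lev A inp) (D : Finset E) (ψ : E' → E)
    (hψ : Function.Injective ψ) :
    Circ mem S (fun i (G' : Finset E') => f i (D ∪ G'.image ψ)) lev A inp := by
  refine h.restrict (fun G' : Finset E' => D ∪ G'.image ψ) (fun e => ?_)
  by_cases hA : e ∈ D
  · exact Or.inl ⟨True, fun G' => by simp [mem, hA]⟩
  · by_cases hr : ∃ e', ψ e' = e
    · obtain ⟨e', rfl⟩ := hr
      refine Or.inr ⟨e', fun G' => ?_⟩
      simp only [mem, mem_union, hA, false_or, mem_image]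
      constructor
      · rintro ⟨e'', h1, h2⟩
        rwa [← hψ h2]
      · exact fun h1 => ⟨e', h1, rfl⟩
    · refine Or.inl ⟨False, fun G' => ?_⟩
      simp only [mem, mem_union, hA, false_or, mem_image, iff_false]
      rintro ⟨e'', h1, h2⟩
      exact hr ⟨e'', h2⟩

/-! ## The random block choice -/

/-- `X z` for a random `z : I → Fin g`: any set `Z` lies in `X z` with probability at most
`g ^ (- |Z|)`. -/
lemma spread_block {V I : Type} [Fintype I] [DecidableEq I] [DecidableEq V] (g : ℕ)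
    (pr : V → I) (co : V → Fin g) (hinj : ∀ v v', pr v = pr v' → co v = co v' → v = v')
    (X : (I → Fin g) → Finset V) (hX : ∀ z v, v ∈ X z → co v = z (pr v)) (Z : Finset V) :
    (g : ℝ) ^ Z.card * (cnt (fun z => Z ⊆ X z) : ℝ) ≤ Fintype.card (I → Fin g) := by
  classical
  by_cases hne : ∃ z₀, Z ⊆ X z₀
  · obtain ⟨z₀, hz₀⟩ := hne
    have h1 : Set.InjOn pr (Z : Set V) := by
      intro v hv v' hv' hvv
      refine hinj v v' hvv ?_
      rw [hX z₀ v (hz₀ hv), hX z₀ v' (hz₀ hv'), hvv]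
    have h2 := cnt_prescribed g (Z.image pr) z₀
    rw [card_image_of_injOn h1] at h2
    have h3 : cnt (fun z => Z ⊆ X z) ≤ cnt (fun z : I → Fin g => ∀ i ∈ Z.image pr, z i = z₀ i) := by
      refine cnt_le_cnt (fun z hz i hi => ?_)
      obtain ⟨v, hv, rfl⟩ := mem_image.1 hi
      rw [← hX z v (hz hv), ← hX z₀ v (hz₀ hv)]
    have h4 : g ^ Z.card * cnt (fun z => Z ⊆ X z) ≤ g ^ Fintype.card I := by
      rw [← h2]
      exact Nat.mul_le_mul_left _ h3
    rw [Fintype.card_fun, Fintype.card_fin]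
    exact_mod_cast h4
  · have h0 : cnt (fun z => Z ⊆ X z) = 0 := cnt_false' (fun z hz => hne ⟨z, hz⟩)
    rw [h0]
    simp

end Pool.Agent.Helper71.Neg
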