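import Pool.Agent.Helper71.Neg.Spread

/-!
# Cells: lines over a prime field
-/

set_option autoImplicit false

namespace Pool.Agent.Helper71.Neg

open Finset

/-- The map of pairs induced by maps of the parts. -/
def mapP {s : ℕ} {U U' : Type} (φ : Fin s → U → U') (e : Pr s U) : Pr s U' :=
  ⟨((e.1.1.1, φ e.1.1.1 e.1.1.2), (e.1.2.1, φ e.1.2.1 e.1.2.2)), e.2⟩

lemma mapP_injective {s : ℕ} {U U' : Type} (φ : Fin s → U → U')
    (h : ∀ a, Function.Injective (φ a)) : Function.Injective (mapP φ) := by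
  rintro ⟨⟨⟨a, u⟩, ⟨b, v⟩⟩, hab⟩ ⟨⟨⟨a', u'⟩, ⟨b', v'⟩⟩, hab'⟩ he
  simp only [mapP, Subtype.mk.injEq, Prod.mk.injEq] at he
  obtain ⟨⟨rfl, h1⟩, ⟨rfl, h2⟩⟩ := he
  rw [h _ h1, h _ h2]

/-- A system of `M` cells: `L i a` is the block of cell `i` in part `a`; two cells share a block in
at most one part. -/
def IsCells {s M : ℕ} {Q : Type} (L : Fin M → Fin s → Q) : Prop :=
  ∀ i j a b, a < b → L i a = L j a → L i b = L j b → i = j

/-- The pair `e` in cell `i`. -/
def cellE {s M : ℕ} {Q W : Type} (L : Fin M → Fin s → Q) (p : Fin M × Pr s W) : Pr s (Q × W) :=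
  mapP (fun a w => (L p.1 a, w)) p.2

lemma cellE_injective {s M : ℕ} {Q W : Type} {L : Fin M → Fin s → Q} (hL : IsCells L) :
    Function.Injective (cellE L (W := W)) := by
  rintro ⟨i, ⟨⟨⟨a, u⟩, ⟨b, v⟩⟩, hab⟩⟩ ⟨j, ⟨⟨⟨a', u'⟩, ⟨b', v'⟩⟩, hab'⟩⟩ he
  simp only [cellE, mapP, Subtype.mk.injEq, Prod.mk.injEq] at he
  obtain ⟨⟨rfl, h1, rfl⟩, ⟨rfl, h2, rfl⟩⟩ := he
  have := hL i j a b hab h1 h2
  subst this
  rfl

/-- The `q ^ 2` lines over the prime field with `q ≥ s` elements. -/
lemma exists_cells {s q : ℕ} (hq : q.Prime) (hs : s ≤ q) :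
    ∃ L : Fin (q * q) → Fin s → ZMod q, IsCells L := by
  have : Fact q.Prime := ⟨hq⟩
  have : NeZero q := ⟨hq.ne_zero⟩
  have hcard : Fintype.card (ZMod q × ZMod q) = q * q := by
    rw [Fintype.card_prod, ZMod.card]
  let e : Fin (q * q) ≃ ZMod q × ZMod q := (Fintype.equivFinOfCardEq hcard).symm
  refine ⟨fun i a => (e i).1 * ((a : ℕ) : ZMod q) + (e i).2, ?_⟩
  intro i j a b hab h1 h2
  have hne : ((a : ℕ) : ZMod q) - ((b : ℕ) : ZMod q) ≠ 0 := by
    intro h0
    rw [sub_eq_zero] at h0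
    have := (ZMod.natCast_eq_natCast_iff' _ _ _).1 h0
    rw [Nat.mod_eq_of_lt (lt_of_lt_of_le a.2 hs), Nat.mod_eq_of_lt (lt_of_lt_of_le b.2 hs)] at this
    exact absurd (Fin.ext this) hab.ne
  have h3 : ((e i).1 - (e j).1) * (((a : ℕ) : ZMod q) - ((b : ℕ) : ZMod q)) = 0 := by
    linear_combination h1 - h2
  have h4 : (e i).1 = (e j).1 := by
    rcases mul_eq_zero.1 h3 with h | h
    · exact sub_eq_zero.1 h
    · exact absurd h hne
  have h5 : (e i).2 = (e j).2 := by
    simp only [h4] at h1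
    exact add_left_cancel h1
  exact e.injective (Prod.ext h4 h5)

section

variable {s M g : ℕ} {Q W U : Type} [Fintype Q] [DecidableEq Q] [Fintype W] [DecidableEq W]
  [Fintype U] [DecidableEq U]

/-- Coloured pairs in the cells before cell `m`. -/
def preA {k : ℕ} (m : ℕ) (c : Fin M → Pr s W → Fin k) : Finset (Fin M × Pr s W) :=
  univ.filter (fun p => (p.1 : ℕ) < m ∧ p.2 ∈ T (c p.1))

/-- The union of the random graphs in the cells before cell `m`. -/
def stA {k : ℕ} (L : Fin M → Fin s → Q) (m : ℕ) (c : Fin M → Pr s W → Fin k) :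
    Finset (Pr s (Q × W)) :=
  (preA m c).image (cellE L)

lemma stA_congr {k : ℕ} (L : Fin M → Fin s → Q) (m : ℕ) (c c' : Fin M → Pr s W → Fin k)
    (h : ∀ j : Fin M, (j : ℕ) < m → c j = c' j) : stA L m c = stA L m c' := by
  unfold stA preA
  congr 1
  ext p
  simp only [mem_filter, mem_univ, true_and]
  constructor
  · rintro ⟨h1, h2⟩
    exact ⟨h1, by rwa [← h _ h1]⟩
  · rintro ⟨h1, h2⟩
    exact ⟨h1, by rwa [h _ h1]⟩

lemma stA_succ {k : ℕ} (L : Fin M → Fin s → Q) (i : Fin M) (c : Fin M → Pr s W → Fin k) :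
    stA L (i + 1) c = stA L i c ∪ (T (c i)).image (fun e => cellE L (i, e)) := by
  unfold stA preA
  ext e
  simp only [mem_image, mem_filter, mem_univ, true_and, mem_union, Prod.exists]
  constructor
  · rintro ⟨j, e', ⟨h1, h2⟩, h3⟩
    by_cases hj : (j : ℕ) < i
    · exact Or.inl ⟨j, e', ⟨hj, h2⟩, h3⟩
    · have : j = i := Fin.ext (by omega)
      subst this
      exact Or.inr ⟨e', h2, h3⟩
  · rintro (⟨j, e', ⟨h1, h2⟩, h3⟩ | ⟨e', h2, h3⟩)
    · exact ⟨j, e', ⟨by omega, h2⟩, h3⟩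
    · exact ⟨i, e', ⟨by omega, h2⟩, h3⟩

/-- The choice of blocks inside a cell. -/
def zE (z : Fin s × U → Fin g) (e : Pr s U) : Pr s (Fin g × U) :=
  mapP (fun a u => (z (a, u), u)) e

lemma zE_injective (z : Fin s × U → Fin g) : Function.Injective (zE z) :=
  mapP_injective _ (fun a u u' h => by
    simp only [Prod.mk.injEq] at h
    exact h.2)

/-- The vertices chosen inside a cell. -/
def Xz (z : Fin s × U → Fin g) : Finset (Fin s × (Fin g × U)) :=
  univ.filter (fun v => v.2.1 = z (v.1, v.2.2))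

lemma zE_subset (z : Fin s × U → Fin g) (G : Finset (Pr s U)) :
    G.image (zE z) ⊆ KK ends (Xz z) := by
  intro e he
  obtain ⟨e', _, rfl⟩ := mem_image.1 he
  refine mem_filter.2 ⟨mem_univ _, fun v hv => ?_⟩
  simp only [ends, zE, mapP, mem_insert, mem_singleton] at hv
  rcases hv with rfl | rfl <;> simp [Xz]

lemma Xz_spread (Z : Finset (Fin s × (Fin g × U))) :
    (g : ℝ) ^ Z.card * (cnt (fun z : Fin s × U → Fin g => Z ⊆ Xz z) : ℝ) ≤
      Fintype.card (Fin s × U → Fin g) := by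
  refine spread_block g (fun v => (v.1, v.2.2)) (fun v => v.2.1) ?_ Xz ?_ Z
  · rintro ⟨a, γ, u⟩ ⟨a', γ', u'⟩ h1 h2
    simp only [Prod.mk.injEq] at h1 h2
    obtain ⟨rfl, rfl⟩ := h1
    subst h2
    rfl
  · intro z v hv
    simpa [Xz] using hv

/-- The random negative (or positive) instance of the next level. -/
def nx {k : ℕ} (L : Fin M → Fin s → Q) (i : Fin M) (c : Fin M → Pr s (Fin g × U) → Fin k)
    (z : Fin s × U → Fin g) (G : Finset (Pr s U)) : Finset (Pr s (Q × (Fin g × U))) :=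
  stA L i c ∪ G.image (fun e => cellE L (i, zE z e))

lemma spread_nx {k : ℕ} (hk : 1 ≤ k) {L : Fin M → Fin s → Q} (hL : IsCells L) {Ω : Type}
    [Fintype Ω] {ng : Ω → Finset (Pr s U)} (h : Spread k ng) :
    Spread k (fun x : (Fin M × (Fin M → Pr s (Fin g × U) → Fin k)) ×
      ((Fin s × U → Fin g) × Ω) => nx L x.1.1 x.1.2 x.2.1 (ng x.2.2)) := by
  classical
  -- fix the cell and the blocks
  have key : ∀ (i : Fin M) (z : Fin s × U → Fin g),
      Spread k (fun x : (Fin M → Pr s (Fin g × U) → Fin k) × Ω => nx L i x.1 z (ng x.2)) := by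
    intro i z
    have h1 : Spread k (fun c : Fin M → Pr s (Fin g × U) → Fin k => preA i c) := by
      intro F
      have h2 := spread_T (E := Fin M × Pr s (Fin g × U)) hk F
      have h3 : cnt (fun c : Fin M → Pr s (Fin g × U) → Fin k => F ⊆ preA i c) ≤
          cnt (fun c : Fin M × Pr s (Fin g × U) → Fin k => F ⊆ T c) := by
        rw [← cnt_equiv (Equiv.curry _ _ _).symm]
        refine cnt_le_cnt (fun c hc p hp => ?_)
        have := hc hp
        simp only [preA, mem_filter, mem_univ, true_and, T] at this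
        simp only [T, mem_filter, mem_univ, true_and]
        exact this.2
      rw [Fintype.card_congr (Equiv.curry (Fin M) (Pr s (Fin g × U)) (Fin k)).symm]
      refine le_trans ?_ h2
      gcongr
    have h4 : Spread k (fun ω => ((ng ω).image (zE z)).image (fun e => (i, e))) :=
      ((h.image hk _ (zE_injective z))).image hk _ (fun e e' he => (Prod.mk.inj he).2)
    have h5 := Spread.prod hk (fun p : Fin M × Pr s (Fin g × U) => p.1 ≠ i) h1 h4
      (by
        intro c p hp
        simp only [preA, mem_filter, mem_univ, true_and] at hp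
        exact fun h => by
          rw [h] at hp
          exact lt_irrefl _ hp.1)
      (by
        intro ω p hp
        obtain ⟨e, _, rfl⟩ := mem_image.1 hp
        simp)
    have h6 := h5.image hk _ (cellE_injective hL)
    refine h6.mono (fun x => ?_)
    unfold nx stA
    rw [image_union]
    refine union_subset_union_right ?_
    rw [image_image, image_image]
    exact subset_of_eq rfl
  -- average
  intro F
  have h7 : ∀ i : Fin M, Spread k (fun x : (Fin s × U → Fin g) ×
      ((Fin M → Pr s (Fin g × U) → Fin k) × Ω) => nx L i x.2.1 x.1 (ng x.2.2)) :=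
    fun i => Spread.fiber (fun z => key i z)
  have h8 : Spread k (fun x : Fin M × ((Fin s × U → Fin g) ×
      ((Fin M → Pr s (Fin g × U) → Fin k) × Ω)) => nx L x.1 x.2.2.1 x.2.1 (ng x.2.2.2)) :=
    Spread.fiber h7
  let E : ((Fin M × (Fin M → Pr s (Fin g × U) → Fin k)) × ((Fin s × U → Fin g) × Ω)) ≃
      (Fin M × ((Fin s × U → Fin g) × ((Fin M → Pr s (Fin g × U) → Fin k) × Ω))) :=
    { toFun := fun x => (x.1.1, (x.2.1, (x.1.2, x.2.2)))
      invFun := fun x => ((x.1, x.2.2.1), (x.2.1, x.2.2.2))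
      left_inv := fun x => rfl
      right_inv := fun x => rfl }
  have h9 := h8 F
  rw [← cnt_equiv E, ← Fintype.card_congr E] at h9
  exact h9

end

end Pool.Agent.Helper71.Neg
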