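import Mathlib

/-!
# Circuits with few non-monotone gates: definitions
-/

set_option autoImplicit false

namespace Pool.Agent.Helper71.Neg

open Finset

/-- Circuits on the instances `G : Γ` with inputs `x e`. The gates are numbered `0, …, S - 1`, and
gate `i` computes the predicate `f i`. The gates `i ∉ A` are constants, inputs, or the AND or OR of
two earlier gates. The gates `i ∈ A` are arbitrary: such a gate is an arbitrary function of the set
`inp i` of gates (of any size) that it reads; NOT gates are the simplest example. `lev` assigns to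
each gate a level: an AND or OR gate is not on a lower level than the gates it reads, and an
arbitrary gate is on a higher level than the gates it reads. -/
structure Circ {Γ ι : Type} (x : ι → Γ → Prop) (S : ℕ) (f : ℕ → Γ → Prop) (lev : ℕ → ℕ)
    (A : Finset ℕ) (inp : ℕ → Finset ℕ) : Prop where
  gate : ∀ i < S, i ∉ A →
    (∃ b : Prop, ∀ G, f i G ↔ b) ∨ (∃ e, ∀ G, f i G ↔ x e G) ∨
    (∃ j < i, ∃ k < i, lev j ≤ lev i ∧ lev k ≤ lev i ∧
      ((∀ G, f i G ↔ (f j G ∧ f k G)) ∨ (∀ G, f i G ↔ (f j G ∨ f k G))))
  any : ∀ i < S, i ∈ A → (∀ j ∈ inp i, j < i ∧ lev j < lev i) ∧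
    ∀ G G', (∀ j ∈ inp i, (f j G ↔ f j G')) → (f i G ↔ f i G')

/-- The gates read by the arbitrary gates of level `m`. -/
def reads (lev : ℕ → ℕ) (A : Finset ℕ) (inp : ℕ → Finset ℕ) (m : ℕ) : Finset ℕ :=
  (A.filter (fun i => lev i = m)).biUnion inp

/-- Pairs of vertices in different parts; part `a` has the vertices `(a, u)`, `u : U`. -/
abbrev Pr (s : ℕ) (U : Type) : Type := {p : (Fin s × U) × (Fin s × U) // p.1.1 < p.2.1}

instance instDecPr {s : ℕ} {U : Type} [DecidableEq U] : DecidableEq (Pr s U) :=
  Subtype.instDecidableEq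

instance instFinPr {s : ℕ} {U : Type} [Fintype U] : Fintype (Pr s U) := Subtype.fintype _

/-- The membership predicates: the inputs of circuits on sets of pairs. -/
abbrev mem {E : Type} : E → Finset E → Prop := fun e G => e ∈ G

/-- The random graph: the pair `e` is absent iff its colour is `0`. -/
def T {E : Type} [Fintype E] {k : ℕ} (c : E → Fin k) : Finset E :=
  univ.filter (fun e => (c e : ℕ) ≠ 0)

/-- All (hyper)edges inside a vertex set. -/
def KK {V E : Type} [DecidableEq V] [Fintype E] (en : E → Finset V) (X : Finset V) : Finset E :=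
  univ.filter (fun e => en e ⊆ X)

/-- The two ends of a pair. -/
def ends {s : ℕ} {U : Type} [DecidableEq U] (e : Pr s U) : Finset (Fin s × U) :=
  {e.1.1, e.1.2}

open Classical in
/-- The number of elements with the property `P`. -/
noncomputable def cnt {Ω : Type} [Fintype Ω] (P : Ω → Prop) : ℕ := (univ.filter P).card

/-- Hard distributions for circuits of size `S` with levels at most `t` whose arbitrary gates of
level `m` read at most `r m` gates: `ng` is a random graph in which pairs are negatively correlated, `ps` always has a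
clique with a vertex in each part, and no circuit tells them apart. -/
structure HardDist (s k t S : ℕ) (r : ℕ → ℕ) (err : ℝ) (U Ω : Type) [Fintype U] [DecidableEq U]
    [Fintype Ω] (ng ps : Ω → Finset (Pr s U)) : Prop where
  spread : ∀ F : Finset (Pr s U),
    (k : ℝ) ^ F.card * (cnt (fun ω => F ⊆ ng ω) : ℝ) ≤
      ((k : ℝ) - 1) ^ F.card * (Fintype.card Ω : ℝ)
  clique : ∀ ω, ∃ y : Fin s → U, ∀ (a b : Fin s) (h : a < b),
    (⟨((a, y a), (b, y b)), h⟩ : Pr s U) ∈ ps ω
  hard : ∀ (f : ℕ → Finset (Pr s U) → Prop) (lev : ℕ → ℕ) (A : Finset ℕ) (inp : ℕ → Finset ℕ)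
    (o : ℕ), Circ mem S f lev A inp → (∀ i < S, lev i ≤ t) →
    (∀ m, 1 ≤ m → (reads lev A inp m).card ≤ r m) → o < S →
    (1 - err) * (Fintype.card Ω : ℝ) ≤
      (cnt (fun ω => f o (ng ω)) : ℝ) + (cnt (fun ω => ¬ f o (ps ω)) : ℝ)

end Pool.Agent.Helper71.Neg
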