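import Pool.Agent.Helper71.Neg.Base

/-!
# Freezing the arbitrary gates
-/

set_option autoImplicit false

namespace Pool.Agent.Helper71.Neg

open Finset

section

variable {E E' : Type} [DecidableEq E] {S : ℕ} {f : ℕ → Finset E → Prop} {lev : ℕ → ℕ}
  {A : Finset ℕ} {inp : ℕ → Finset ℕ}

/-- Gate `i` of the frozen circuit `f'`. -/
def Frz (f : ℕ → Finset E → Prop) (A : Finset ℕ) (D : Finset E) (ψ : E' → E)
    (f' : ℕ → Finset E' → Prop) (i : ℕ) : Prop :=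
  (i ∈ A ∧ ∀ H, f' i H ↔ f i D) ∨
  (i ∉ A ∧ ((∃ b : Prop, (∀ G, f i G ↔ b) ∧ ∀ H, f' i H ↔ b) ∨
    (∃ e, (∀ G, f i G ↔ e ∈ G) ∧ ∀ H : Finset E', f' i H ↔ e ∈ D ∪ H.image ψ) ∨
    (∃ j < i, ∃ k < i, (∀ G, f i G ↔ (f j G ∧ f k G)) ∧ ∀ H, f' i H ↔ (f' j H ∧ f' k H)) ∨
    (∃ j < i, ∃ k < i, (∀ G, f i G ↔ (f j G ∨ f k G)) ∧ ∀ H, f' i H ↔ (f' j H ∨ f' k H))))

lemma Frz.congr {D : Finset E} {ψ : E' → E} {f' f'' : ℕ → Finset E' → Prop} {i : ℕ}
    (h : Frz f A D ψ f' i) (hf : ∀ j ≤ i, f' j = f'' j) : Frz f A D ψ f'' i := by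
  rcases h with ⟨h1, h2⟩ | ⟨h1, h2⟩
  · exact Or.inl ⟨h1, fun H => by rw [← hf i le_rfl]; exact h2 H⟩
  · refine Or.inr ⟨h1, ?_⟩
    rcases h2 with ⟨b, hb, hb'⟩ | ⟨e, he, he'⟩ | ⟨j, hj, k, hk, h3, h4⟩ | ⟨j, hj, k, hk, h3, h4⟩
    · exact Or.inl ⟨b, hb, fun H => by rw [← hf i le_rfl]; exact hb' H⟩
    · exact Or.inr (Or.inl ⟨e, he, fun H => by rw [← hf i le_rfl]; exact he' H⟩)
    · exact Or.inr (Or.inr (Or.inl ⟨j, hj, k, hk, h3, fun H => by
        rw [← hf i le_rfl, ← hf j hj.le, ← hf k hk.le]; exact h4 H⟩))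
    · exact Or.inr (Or.inr (Or.inr ⟨j, hj, k, hk, h3, fun H => by
        rw [← hf i le_rfl, ← hf j hj.le, ← hf k hk.le]; exact h4 H⟩))

lemma exists_frz (hC : Circ mem S f lev A inp) (D : Finset E) (ψ : E' → E) :
    ∀ m ≤ S, ∃ f' : ℕ → Finset E' → Prop, ∀ i < m, Frz f A D ψ f' i := by
  intro m
  induction m with
  | zero => exact fun _ => ⟨fun _ _ => True, fun i hi => absurd hi (Nat.not_lt_zero i)⟩
  | succ m ih =>
    intro hm
    obtain ⟨f', hf'⟩ := ih (by omega)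
    -- the new gate
    have hv : ∃ v : Finset E' → Prop,
        (m ∈ A ∧ ∀ H, v H ↔ f m D) ∨
        (m ∉ A ∧ ((∃ b : Prop, (∀ G, f m G ↔ b) ∧ ∀ H, v H ↔ b) ∨
          (∃ e, (∀ G, f m G ↔ e ∈ G) ∧ ∀ H : Finset E', v H ↔ e ∈ D ∪ H.image ψ) ∨
          (∃ j < m, ∃ k < m, (∀ G, f m G ↔ (f j G ∧ f k G)) ∧ ∀ H, v H ↔ (f' j H ∧ f' k H)) ∨
          (∃ j < m, ∃ k < m, (∀ G, f m G ↔ (f j G ∨ f k G)) ∧
            ∀ H, v H ↔ (f' j H ∨ f' k H)))) := by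
      by_cases hA : m ∈ A
      · exact ⟨fun _ => f m D, Or.inl ⟨hA, fun _ => Iff.rfl⟩⟩
      · rcases hC.gate m (by omega) hA with ⟨b, hb⟩ | ⟨e, he⟩ | ⟨j, hj, k, hk, _, _, hjk | hjk⟩
        · exact ⟨fun _ => b, Or.inr ⟨hA, Or.inl ⟨b, hb, fun _ => Iff.rfl⟩⟩⟩
        · exact ⟨fun H => e ∈ D ∪ H.image ψ, Or.inr ⟨hA, Or.inr (Or.inl
            ⟨e, he, fun _ => Iff.rfl⟩)⟩⟩
        · exact ⟨fun H => f' j H ∧ f' k H, Or.inr ⟨hA, Or.inr (Or.inr (Or.inl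
            ⟨j, hj, k, hk, hjk, fun _ => Iff.rfl⟩))⟩⟩
        · exact ⟨fun H => f' j H ∨ f' k H, Or.inr ⟨hA, Or.inr (Or.inr (Or.inr
            ⟨j, hj, k, hk, hjk, fun _ => Iff.rfl⟩))⟩⟩
    obtain ⟨v, hv⟩ := hv
    refine ⟨Function.update f' m v, fun i hi => ?_⟩
    rcases Nat.lt_or_ge i m with h | h
    · refine (hf' i h).congr (fun j hj => ?_)
      rw [Function.update_of_ne (by omega)]
    · have : i = m := by omega
      subst this
      have hup : Function.update f' i v i = v := Function.update_self _ _ _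
      have hne : ∀ j < i, Function.update f' i v j = f' j := fun j hj =>
        Function.update_of_ne (by omega) _ _
      rcases hv with ⟨h1, h2⟩ | ⟨h1, h2⟩
      · exact Or.inl ⟨h1, fun H => by rw [hup]; exact h2 H⟩
      · refine Or.inr ⟨h1, ?_⟩
        rcases h2 with ⟨b, hb, hb'⟩ | ⟨e, he, he'⟩ | ⟨j, hj, k, hk, h3, h4⟩ |
          ⟨j, hj, k, hk, h3, h4⟩
        · exact Or.inl ⟨b, hb, fun H => by rw [hup]; exact hb' H⟩
        · exact Or.inr (Or.inl ⟨e, he, fun H => by rw [hup]; exact he' H⟩)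
        · exact Or.inr (Or.inr (Or.inl ⟨j, hj, k, hk, h3, fun H => by
            rw [hup, hne j hj, hne k hk]; exact h4 H⟩))
        · exact Or.inr (Or.inr (Or.inr ⟨j, hj, k, hk, h3, fun H => by
            rw [hup, hne j hj, hne k hk]; exact h4 H⟩))

/-- The frozen circuit. -/
theorem freeze (hC : Circ mem S f lev A inp) (D : Finset E) (ψ : E' → E)
    (hψ : Function.Injective ψ) :
    ∃ f' : ℕ → Finset E' → Prop,
      (∀ i < S, (∃ b : Prop, ∀ H, f' i H ↔ b) ∨ (∃ e, ∀ H, f' i H ↔ e ∈ H) ∨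
        (∃ j < i, ∃ k < i,
          ((∀ H, f' i H ↔ (f' j H ∧ f' k H)) ∨ (∀ H, f' i H ↔ (f' j H ∨ f' k H))))) ∧
      (∀ H : Finset E', (∀ i < S, i ∈ A → ∀ j ∈ inp i, (f' j H ↔ f j D)) →
        ∀ i < S, (f i (D ∪ H.image ψ) ↔ f' i H)) ∧
      (∀ H : Finset E', (∀ i < S, i ∈ A → ∀ j ∈ inp i, (f j (D ∪ H.image ψ) ↔ f j D)) →
        ∀ i < S, (f i (D ∪ H.image ψ) ↔ f' i H)) := by
  obtain ⟨f', hf'⟩ := exists_frz hC D ψ S le_rfl
  refine ⟨f', fun i hi => ?_, fun H hH i => ?_, fun H hH i => ?_⟩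
  · rcases hf' i hi with ⟨_, h2⟩ | ⟨_, h2⟩
    · exact Or.inl ⟨_, h2⟩
    · rcases h2 with ⟨b, _, hb'⟩ | ⟨e, _, he'⟩ | ⟨j, hj, k, hk, _, h4⟩ | ⟨j, hj, k, hk, _, h4⟩
      · exact Or.inl ⟨b, hb'⟩
      · by_cases hD : e ∈ D
        · exact Or.inl ⟨True, fun H => by rw [he']; simp [hD]⟩
        · by_cases hr : ∃ e', ψ e' = e
          · obtain ⟨e', rfl⟩ := hr
            refine Or.inr (Or.inl ⟨e', fun H => ?_⟩)
            rw [he', mem_union, mem_image]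
            constructor
            · rintro (h | ⟨e'', h1, h2⟩)
              · exact absurd h hD
              · rwa [← hψ h2]
            · exact fun h => Or.inr ⟨e', h, rfl⟩
          · refine Or.inl ⟨False, fun H => ?_⟩
            rw [he', mem_union, mem_image, iff_false]
            rintro (h | ⟨e'', h1, h2⟩)
            · exact hD h
            · exact hr ⟨e'', h2⟩
      · exact Or.inr (Or.inr ⟨j, hj, k, hk, Or.inl h4⟩)
      · exact Or.inr (Or.inr ⟨j, hj, k, hk, Or.inr h4⟩)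
  · induction i using Nat.strong_induction_on with
    | _ i ih =>
      intro hi
      rcases hf' i hi with ⟨h1, h2⟩ | ⟨h1, h2⟩
      · rw [h2]
        refine (hC.any i hi h1).2 _ _ (fun j hj => ?_)
        have hlt := ((hC.any i hi h1).1 j hj).1
        rw [ih j hlt (by omega)]
        exact hH i hi h1 j hj
      · rcases h2 with ⟨b, hb, hb'⟩ | ⟨e, he, he'⟩ | ⟨j, hj, k, hk, h3, h4⟩ |
          ⟨j, hj, k, hk, h3, h4⟩
        · rw [hb, hb']
        · rw [he, he']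
        · rw [h3, h4, ih j hj (by omega), ih k hk (by omega)]
        · rw [h3, h4, ih j hj (by omega), ih k hk (by omega)]
  · induction i using Nat.strong_induction_on with
    | _ i ih =>
      intro hi
      rcases hf' i hi with ⟨h1, h2⟩ | ⟨h1, h2⟩
      · rw [h2]
        exact (hC.any i hi h1).2 _ _ (fun j hj => hH i hi h1 j hj)
      · rcases h2 with ⟨b, hb, hb'⟩ | ⟨e, he, he'⟩ | ⟨j, hj, k, hk, h3, h4⟩ |
          ⟨j, hj, k, hk, h3, h4⟩
        · rw [hb, hb']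
        · rw [he, he']
        · rw [h3, h4, ih j hj (by omega), ih k hk (by omega)]
        · rw [h3, h4, ih j hj (by omega), ih k hk (by omega)]

/-- Frozen circuits are monotone. -/
lemma mono_of_gates {f' : ℕ → Finset E' → Prop}
    (h : ∀ i < S, (∃ b : Prop, ∀ H, f' i H ↔ b) ∨ (∃ e, ∀ H, f' i H ↔ e ∈ H) ∨
      (∃ j < i, ∃ k < i,
        ((∀ H, f' i H ↔ (f' j H ∧ f' k H)) ∨ (∀ H, f' i H ↔ (f' j H ∨ f' k H)))))
    {H H' : Finset E'} (hH : H ⊆ H') : ∀ i, i < S → f' i H → f' i H' := by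
  intro i
  induction i using Nat.strong_induction_on with
  | _ i ih =>
    intro hi hf
    rcases h i hi with ⟨b, hb⟩ | ⟨e, he⟩ | ⟨j, hj, k, hk, hjk | hjk⟩
    · exact (hb H').2 ((hb H).1 hf)
    · exact (he H').2 (hH ((he H).1 hf))
    · exact (hjk H').2 ⟨ih j hj (by omega) ((hjk H).1 hf).1, ih k hk (by omega) ((hjk H).1 hf).2⟩
    · exact (hjk H').2 (((hjk H).1 hf).imp (ih j hj (by omega)) (ih k hk (by omega)))

end

end Pool.Agent.Helper71.Neg
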