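import Pool.Agent.Helper71.Neg.Step

/-!
# Hard distributions exist
-/

set_option autoImplicit false

namespace Pool.Agent.Helper71.Neg

open Finset

/-- The transversal given by `y`. -/
def Xb {s g : ℕ} (y : Fin s → Fin g) : Finset (Fin s × Fin g) :=
  univ.filter (fun v => v.2 = y v.1)

lemma Xb_spread {s g : ℕ} (Z : Finset (Fin s × Fin g)) :
    (g : ℝ) ^ Z.card * (cnt (fun y : Fin s → Fin g => Z ⊆ Xb y) : ℝ) ≤
      Fintype.card (Fin s → Fin g) := by
  refine spread_block g (fun v => v.1) (fun v => v.2) ?_ Xb ?_ Z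
  · rintro ⟨a, γ⟩ ⟨a', γ'⟩ h1 h2
    exact Prod.ext h1 h2
  · intro z v hv
    simpa [Xb] using hv

/-- No NOT gates. -/
theorem base_hard {s g k l ρ S : ℕ} (hl : 2 ≤ l) (hρ : 1 ≤ ρ) (hg : 1 ≤ g) (hk : 1 ≤ k)
    {τ ζ : ℝ} (hτ : (l ^ 2 : ℝ) / k + S * ((l ^ 2 : ℝ) / k) ^ (ρ + 1) ≤ τ)
    (hζ : S * ((ρ : ℝ) / g) ^ (l + 1) ≤ ζ) (r : ℕ → ℕ) :
    HardDist s k 0 S r (τ + ζ) (Fin g) ((Pr s (Fin g) → Fin k) × (Fin s → Fin g))
      (fun x => T x.1) (fun x => KK ends (Xb x.2)) := by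
  classical
  constructor
  · intro F
    have h := spread_T (E := Pr s (Fin g)) hk F
    rw [cnt_fst (Ω' := Fin s → Fin g) (fun c : Pr s (Fin g) → Fin k => F ⊆ T c),
      Fintype.card_prod]
    push_cast
    have h0 : (0 : ℝ) ≤ (Fintype.card (Fin s → Fin g) : ℝ) := Nat.cast_nonneg _
    have := mul_le_mul_of_nonneg_right h h0
    calc _ = (k : ℝ) ^ F.card * (cnt (fun c : Pr s (Fin g) → Fin k => F ⊆ T c) : ℝ) *
          (Fintype.card (Fin s → Fin g) : ℝ) := by ring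
      _ ≤ _ := this
      _ = _ := by ring
  · rintro ⟨c, y⟩
    refine ⟨y, fun a b hab => ?_⟩
    refine mem_filter.2 ⟨mem_univ _, fun v hv => ?_⟩
    simp only [ends, mem_insert, mem_singleton] at hv
    rcases hv with rfl | rfl <;> simp [Xb]
  · intro f lev A inp o hC hlev hr ho
    obtain ⟨B, hB, hB2⟩ := Pool.Agent.Helper6.NegA.approx (V := Fin s × Fin g) (E := Pr s (Fin g))
      (ΩX := Fin s → Fin g) ends l ρ (l ^ 2) S g k
      (fun e => (card_ends e).trans hl) hρ hg hk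
      (fun Z hZ => (card_KK_ends Z).trans (Nat.pow_le_pow_left hZ 2)) Xb
      (fun Z => Xb_spread Z) f (fun j => lev j = 0)
      (fun j hj hj0 => hC.level_zero hj hj0)
    have ho0 : lev o = 0 := Nat.le_zero.1 (hlev o ho)
    have hτ0 : 0 ≤ τ := le_trans (by positivity) hτ
    have hζ0 : 0 ≤ ζ := le_trans (by positivity) hζ
    rw [cnt_fst (Ω' := Fin s → Fin g) (fun c : Pr s (Fin g) → Fin k => f o (T c)),
      cnt_snd (Ω := Pr s (Fin g) → Fin k) (fun y : Fin s → Fin g => ¬ f o (KK ends (Xb y))),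
      Fintype.card_prod]
    push_cast
    have hB' : (cnt B : ℝ) ≤ ζ * Fintype.card (Fin s → Fin g) := by
      refine hB.trans ?_
      gcongr
    rcases hB2 o ho ho0 with h | h
    · have h1 : Fintype.card (Fin s → Fin g) ≤
          cnt B + cnt (fun y : Fin s → Fin g => ¬ f o (KK ends (Xb y))) := by
        rw [← cnt_add_not B]
        have := cnt_le_cnt (P := fun y => ¬ B y) (Q := fun y => ¬ f o (KK ends (Xb y)))
          (fun y hy => h y hy)
        omega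
      have h2 : (Fintype.card (Fin s → Fin g) : ℝ) ≤
          (cnt B : ℝ) + (cnt (fun y : Fin s → Fin g => ¬ f o (KK ends (Xb y))) : ℝ) := by
        exact_mod_cast h1
      have h3 : (0 : ℝ) ≤ (cnt (fun c : Pr s (Fin g) → Fin k => f o (T c)) : ℝ) *
          (Fintype.card (Fin s → Fin g) : ℝ) := by positivity
      have h4 : (1 - (τ + ζ)) * (Fintype.card (Fin s → Fin g) : ℝ) ≤
          (cnt (fun y : Fin s → Fin g => ¬ f o (KK ends (Xb y))) : ℝ) := by
        have h5 : 0 ≤ τ * (Fintype.card (Fin s → Fin g) : ℝ) := by positivity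
        linarith
      have h6 := mul_le_mul_of_nonneg_left h4
        (Nat.cast_nonneg (Fintype.card (Pr s (Fin g) → Fin k)) : (0 : ℝ) ≤ _)
      calc (1 - (τ + ζ)) * ((Fintype.card (Pr s (Fin g) → Fin k) : ℝ) *
            (Fintype.card (Fin s → Fin g) : ℝ)) =
            (Fintype.card (Pr s (Fin g) → Fin k) : ℝ) *
              ((1 - (τ + ζ)) * (Fintype.card (Fin s → Fin g) : ℝ)) := by ring
        _ ≤ _ := h6
        _ ≤ _ := by linarith
    · have h7 : (1 - (τ + ζ)) * (Fintype.card (Pr s (Fin g) → Fin k) : ℝ) ≤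
          (cnt (fun c : Pr s (Fin g) → Fin k => f o (T c)) : ℝ) := by
        refine le_trans ?_ h
        have h3 : ((l ^ 2 : ℕ) : ℝ) = (l ^ 2 : ℝ) := by push_cast; rfl
        rw [h3]
        exact mul_le_mul_of_nonneg_right (by linarith) (Nat.cast_nonneg _)
      have h6 := mul_le_mul_of_nonneg_right h7
        (Nat.cast_nonneg (Fintype.card (Fin s → Fin g)) : (0 : ℝ) ≤ _)
      have h8 : (0 : ℝ) ≤ (Fintype.card (Pr s (Fin g) → Fin k) : ℝ) *
          (cnt (fun y : Fin s → Fin g => ¬ f o (KK ends (Xb y))) : ℝ) := by positivity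
      calc (1 - (τ + ζ)) * ((Fintype.card (Pr s (Fin g) → Fin k) : ℝ) *
            (Fintype.card (Fin s → Fin g) : ℝ)) =
            (1 - (τ + ζ)) * (Fintype.card (Pr s (Fin g) → Fin k) : ℝ) *
              (Fintype.card (Fin s → Fin g) : ℝ) := by ring
        _ ≤ _ := h6
        _ ≤ _ := by linarith

/-- Existence of hard distributions. -/
theorem exists_hard (s k g l ρ S : ℕ) (hs : 2 ≤ s) (hl : 2 ≤ l) (hρ : 1 ≤ ρ) (hg : 1 ≤ g)
    (hk : 1 ≤ k) (τ ζ : ℝ) (hτ : (l ^ 2 : ℝ) / k + S * ((l ^ 2 : ℝ) / k) ^ (ρ + 1) ≤ τ)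
    (hτ2 : τ ≤ 1 / 2) (hζ : S * ((ρ : ℝ) / g) ^ (l + 1) ≤ ζ) (t : ℕ) (q r : ℕ → ℕ)
    (hq : ∀ m, (q m).Prime ∧ s ≤ q m) :
    ∃ (U Ω : Type) (_ : Fintype U) (_ : DecidableEq U) (_ : Fintype Ω) (_ : Nonempty Ω)
      (ng ps : Ω → Finset (Pr s U)),
      Fintype.card U = g * ∏ m ∈ range t, (q (m + 1) * g) ∧
      HardDist s k t S r
        (τ + (t + 1) * ζ + ∑ m ∈ range t, 2 * (r (m + 1) : ℝ) / (q (m + 1) : ℝ) ^ 2)
        U Ω ng ps := by
  induction t generalizing q r with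
  | zero =>
    have : Nonempty (Fin g) := ⟨⟨0, hg⟩⟩
    have : Nonempty (Fin k) := ⟨⟨0, hk⟩⟩
    refine ⟨Fin g, (Pr s (Fin g) → Fin k) × (Fin s → Fin g), inferInstance, inferInstance,
      inferInstance, inferInstance, fun x => T x.1, fun x => KK ends (Xb x.2), by simp, ?_⟩
    have := base_hard (s := s) hl hρ hg hk hτ hζ r
    simpa using this
  | succ t ih =>
    obtain ⟨U, Ω, hU, hUd, hΩ, hΩn, ng, ps, hcard, hD⟩ := ih (fun m => q (m + 1))
      (fun m => r (m + 1)) (fun m => hq (m + 1))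
    obtain ⟨L, hL⟩ := exists_cells (hq 1).1 (hq 1).2
    have hq0 : NeZero (q 1) := ⟨(hq 1).1.ne_zero⟩
    have hζ0 : 0 ≤ ζ := le_trans (by positivity) hζ
    have hτ0 : 0 ≤ τ := le_trans (by positivity) hτ
    have hqq : 0 < q 1 * q 1 := Nat.mul_pos (hq 1).1.pos (hq 1).1.pos
    have hi1 : Nonempty (Fin (q 1 * q 1)) := ⟨⟨0, hqq⟩⟩
    have hi2 : Nonempty (Fin g) := ⟨⟨0, hg⟩⟩
    have hi3 : Nonempty (Fin k) := ⟨⟨0, hk⟩⟩
    refine ⟨ZMod (q 1) × (Fin g × U), NS s k g (q 1 * q 1) U Ω, inferInstance, inferInstance,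
      inferInstance, inferInstance, fun x => nx L x.1.1 x.1.2 x.2.1 (ng x.2.2),
      fun x => nx L x.1.1 x.1.2 x.2.1 (ps x.2.2), ?_, ?_⟩
    rotate_left
    · have hstep := step_hard (q := q 1) (S := S) (l := l) (ρ := ρ) (g := g) (k := k)
        (hq 1).1.one_le hL hl hρ hg hk hτ hτ2 hζ
        (err := τ + (t + 1) * ζ + ∑ m ∈ range t, 2 * (r (m + 1 + 1) : ℝ) / (q (m + 1 + 1) : ℝ) ^ 2)
        (by positivity) (r := r) hD
      have herr : τ + (((t + 1 : ℕ) : ℝ) + 1) * ζ +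
          ∑ m ∈ range (t + 1), 2 * (r (m + 1) : ℝ) / (q (m + 1) : ℝ) ^ 2 =
          (τ + (t + 1) * ζ + ∑ m ∈ range t, 2 * (r (m + 1 + 1) : ℝ) / (q (m + 1 + 1) : ℝ) ^ 2) +
            ζ + 2 * (r 1 : ℝ) / (q 1 : ℝ) ^ 2 := by
        rw [sum_range_succ']
        push_cast
        ring
      rw [herr]
      exact hstep
    · rw [Fintype.card_prod, ZMod.card, Fintype.card_prod, Fintype.card_fin, hcard,
        prod_range_succ' (fun m => q (m + 1) * g)]
      ring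

end Pool.Agent.Helper71.Neg
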