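import Pool.Agent.Helper71.Neg.Base

/-!
# Markov's potential
-/

set_option autoImplicit false

namespace Pool.Agent.Helper71.Neg

open Finset

section

variable {E : Type} {S : ℕ} {f : ℕ → Finset E → Prop} {lev : ℕ → ℕ} {A : Finset ℕ}
  {inp : ℕ → Finset ℕ} {r : ℕ → ℕ}

/-- The gates read by the arbitrary gates of level `m`, without junk. -/
def rd (S : ℕ) (lev : ℕ → ℕ) (A : Finset ℕ) (inp : ℕ → Finset ℕ) (m : ℕ) : Finset ℕ :=
  (reads lev A inp m).filter (fun j => j < S ∧ lev j < m)

open Classical in
/-- Markov's potential: the bits read by the gates of levels `1, …, m` as a mixed radix number. -/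
noncomputable def pot (S : ℕ) (f : ℕ → Finset E → Prop) (lev : ℕ → ℕ) (A : Finset ℕ)
    (inp : ℕ → Finset ℕ) (r : ℕ → ℕ) : ℕ → Finset E → ℕ
  | 0, _ => 0
  | m + 1, G => pot S f lev A inp r m G * (1 + r (m + 1)) +
      ((rd S lev A inp (m + 1)).filter (fun j => f j G)).card

lemma pot_lt (hr : ∀ m, 1 ≤ m → (reads lev A inp m).card ≤ r m) (m : ℕ) (G : Finset E) :
    pot S f lev A inp r m G < ∏ i ∈ range m, (1 + r (i + 1)) := by
  classical
  induction m with
  | zero => simp [pot]
  | succ m ih =>
    rw [prod_range_succ]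
    show pot S f lev A inp r m G * (1 + r (m + 1)) +
      ((rd S lev A inp (m + 1)).filter (fun j => f j G)).card < _
    have h1 : ((rd S lev A inp (m + 1)).filter (fun j => f j G)).card ≤ r (m + 1) :=
      (card_filter_le _ _).trans ((card_filter_le _ _).trans (hr (m + 1) (by omega)))
    calc pot S f lev A inp r m G * (1 + r (m + 1)) +
          ((rd S lev A inp (m + 1)).filter (fun j => f j G)).card
        < pot S f lev A inp r m G * (1 + r (m + 1)) + (1 + r (m + 1)) := by omega
      _ = (pot S f lev A inp r m G + 1) * (1 + r (m + 1)) := by ring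
      _ ≤ (∏ i ∈ range m, (1 + r (i + 1))) * (1 + r (m + 1)) :=
          Nat.mul_le_mul_right _ ih

/-- The bits read by the gates of levels `1, …, m` agree. -/
def Same (S : ℕ) (f : ℕ → Finset E → Prop) (lev : ℕ → ℕ) (A : Finset ℕ)
    (inp : ℕ → Finset ℕ) (m : ℕ) (G G' : Finset E) : Prop :=
  ∀ m', 1 ≤ m' → m' ≤ m → ∀ j ∈ rd S lev A inp m', (f j G ↔ f j G')

lemma mem_rd (hC : Circ mem S f lev A inp) {i : ℕ} (hi : i < S) (hiA : i ∈ A) {j : ℕ}
    (hj : j ∈ inp i) : j ∈ rd S lev A inp (lev i) := by
  have h := (hC.any i hi hiA).1 j hj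
  exact mem_filter.2 ⟨mem_biUnion.2 ⟨i, mem_filter.2 ⟨hiA, rfl⟩, hj⟩, by omega, h.2⟩

lemma mono_of_same (hC : Circ mem S f lev A inp) {m : ℕ} {G G' : Finset E}
    (hs : Same S f lev A inp m G G') (hG : G ⊆ G') :
    ∀ i, i < S → lev i ≤ m → f i G → f i G' := by
  intro i
  induction i using Nat.strong_induction_on with
  | _ i ih =>
    intro hi hm hf
    by_cases hA : i ∈ A
    · refine ((hC.any i hi hA).2 G G' (fun j hj => ?_)).1 hf
      have h := (hC.any i hi hA).1 j hj
      exact hs (lev i) (by omega) hm j (mem_rd hC hi hA hj)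
    · rcases hC.gate i hi hA with ⟨b, hb⟩ | ⟨e, he⟩ | ⟨j, hj, k, hk, hlj, hlk, hjk⟩
      · exact (hb G').2 ((hb G).1 hf)
      · exact (he G').2 (hG ((he G).1 hf))
      · have h1 := ih j hj (by omega) (by omega)
        have h2 := ih k hk (by omega) (by omega)
        rcases hjk with hjk | hjk
        · exact (hjk G').2 ⟨h1 ((hjk G).1 hf).1, h2 ((hjk G).1 hf).2⟩
        · exact (hjk G').2 (((hjk G).1 hf).imp h1 h2)

lemma pot_spec (hC : Circ mem S f lev A inp)
    (hr : ∀ m, 1 ≤ m → (reads lev A inp m).card ≤ r m) {G G' : Finset E} (hG : G ⊆ G') (m : ℕ) :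
    (Same S f lev A inp m G G' ∧ pot S f lev A inp r m G = pot S f lev A inp r m G') ∨
      pot S f lev A inp r m G < pot S f lev A inp r m G' := by
  classical
  induction m with
  | zero =>
    left
    refine ⟨fun m' h1 h2 => ?_, rfl⟩
    omega
  | succ m ih =>
    have e : ∀ G : Finset E, pot S f lev A inp r (m + 1) G =
      pot S f lev A inp r m G * (1 + r (m + 1)) +
      ((rd S lev A inp (m + 1)).filter (fun j => f j G)).card := fun G => by
        show pot S f lev A inp r m G * (1 + r (m + 1)) + _ = _
        congr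
    rw [e, e]
    rcases ih with ⟨hs, hp⟩ | hp
    · have hsub : (rd S lev A inp (m + 1)).filter (fun j => f j G) ⊆
          (rd S lev A inp (m + 1)).filter (fun j => f j G') := by
        intro j hj
        rw [mem_filter] at hj ⊢
        have h1 := (mem_filter.1 hj.1).2
        exact ⟨hj.1, mono_of_same hC hs hG j h1.1 (by omega) hj.2⟩
      rw [hp]
      by_cases heq : (rd S lev A inp (m + 1)).filter (fun j => f j G) =
          (rd S lev A inp (m + 1)).filter (fun j => f j G')
      · left
        refine ⟨fun m' h1 h2 j hj => ?_, by rw [heq]⟩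
        rcases Nat.lt_or_ge m' (m + 1) with h3 | h3
        · exact hs m' h1 (by omega) j hj
        · have : m' = m + 1 := by omega
          subst this
          constructor
          · intro h4
            have : j ∈ (rd S lev A inp (m + 1)).filter (fun j => f j G) := mem_filter.2 ⟨hj, h4⟩
            rw [heq] at this
            exact (mem_filter.1 this).2
          · intro h4
            have : j ∈ (rd S lev A inp (m + 1)).filter (fun j => f j G') := mem_filter.2 ⟨hj, h4⟩
            rw [← heq] at this
            exact (mem_filter.1 this).2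
      · right
        have := card_lt_card (Finset.ssubset_iff_subset_ne.2 ⟨hsub, heq⟩)
        omega
    · right
      have h1 : ((rd S lev A inp (m + 1)).filter (fun j => f j G)).card ≤ r (m + 1) :=
        (card_filter_le _ _).trans ((card_filter_le _ _).trans (hr (m + 1) (by omega)))
      calc pot S f lev A inp r m G * (1 + r (m + 1)) +
            ((rd S lev A inp (m + 1)).filter (fun j => f j G)).card
          < pot S f lev A inp r m G * (1 + r (m + 1)) + (1 + r (m + 1)) := by omega
        _ = (pot S f lev A inp r m G + 1) * (1 + r (m + 1)) := by ring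
        _ ≤ pot S f lev A inp r m G' * (1 + r (m + 1)) := Nat.mul_le_mul_right _ hp
        _ ≤ _ := Nat.le_add_right _ _

/-- All bits read agree if the potential does not grow. -/
lemma same_of_pot (hC : Circ mem S f lev A inp)
    (hr : ∀ m, 1 ≤ m → (reads lev A inp m).card ≤ r m) {t : ℕ} (ht : ∀ i < S, lev i ≤ t)
    {G G' : Finset E} (hG : G ⊆ G')
    (hp : pot S f lev A inp r t G = pot S f lev A inp r t G') :
    ∀ i < S, i ∈ A → ∀ j ∈ inp i, (f j G ↔ f j G') := by
  intro i hi hA j hj
  rcases pot_spec hC hr hG t with ⟨h1, _⟩ | h1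
  · have h := (hC.any i hi hA).1 j hj
    exact h1 (lev i) (by omega) (ht i hi) j (mem_rd hC hi hA hj)
  · omega

lemma pot_mono (hC : Circ mem S f lev A inp)
    (hr : ∀ m, 1 ≤ m → (reads lev A inp m).card ≤ r m) {t : ℕ}
    {G G' : Finset E} (hG : G ⊆ G') :
    pot S f lev A inp r t G ≤ pot S f lev A inp r t G' := by
  rcases pot_spec hC hr hG t with ⟨_, h1⟩ | h1
  · exact h1.le
  · exact h1.le

end

end Pool.Agent.Helper71.Neg
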