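import Pool.Agent.Helper71.Neg.Cells
import Pool.Agent.Helper71.Neg.Pot
import Pool.Agent.Helper71.Neg.Freeze
import Pool.Agent.Helper6.NegTel

/-!
# Hard distributions, without loss in the number of levels
-/

set_option autoImplicit false

namespace Pool.Agent.Helper71.Neg

open Finset

/-- Telescoping. -/
theorem tel_sum {Col Γ : Type} [Fintype Col] (M r : ℕ) (A : ℕ → (Fin M → Col) → Γ)
    (add : Fin M → Γ → Col → Γ) (H : Γ → ℕ) (hr : ∀ x, H x ≤ r)
    (hA : ∀ (i : ℕ) (c c' : Fin M → Col), (∀ j : Fin M, (j : ℕ) < i → c j = c' j) → A i c = A i c')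
    (hstep : ∀ (i : Fin M) (c : Fin M → Col), A (i + 1) c = add i (A i c) (c i))
    (hmono : ∀ (i : Fin M) (x : Γ) (c' : Col), H x ≤ H (add i x c')) :
    ∑ p : Fin M × (Fin M → Col), ∑ c', (H (add p.1 (A p.1 p.2) c') - H (A p.1 p.2)) ≤
    Fintype.card Col * (r * Fintype.card Col ^ M) := by
  classical
  set N := Fintype.card Col with hN
  set F : Fin M × (Fin M → Col) → ℕ := fun p =>
    ∑ c', (H (add p.1 (A p.1 p.2) c') - H (A p.1 p.2)) with hF
  have hlev : ∀ i : Fin M, ∑ c : Fin M → Col, F (i, c) =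
      N * ∑ c : Fin M → Col, (H (A (i + 1) c) - H (A i c)) := by
    intro i
    rw [← Pool.Agent.Helper6.NegT.sum_update i (fun c => H (A (i + 1) c) - H (A i c))]
    refine Finset.sum_congr rfl fun c _ => Finset.sum_congr rfl fun c' _ => ?_
    have h1 : A i (Function.update c i c') = A i c := by
      apply hA
      intro j hj
      rw [Function.update_of_ne]
      intro h
      rw [h] at hj
      exact lt_irrefl _ hj
    have h2 : A (i + 1) (Function.update c i c') = add i (A i c) c' := by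
      rw [hstep, h1, Function.update_self]
    show H (add i (A i c) c') - H (A i c) = _
    rw [h1, h2]
  rw [Fintype.sum_prod_type, Finset.sum_congr rfl (fun i _ => hlev i), ← Finset.mul_sum,
    Finset.sum_comm]
  have h3 : ∀ c : Fin M → Col, ∑ i : Fin M, (H (A (i + 1) c) - H (A i c)) ≤ r := by
    intro c
    have h4 := Fin.sum_univ_eq_sum_range (fun i => H (A (i + 1) c) - H (A i c)) M
    rw [h4]
    apply Pool.Agent.Helper6.NegT.sum_tel (fun i => H (A i c))
    · intro i hi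
      have h5 := hstep ⟨i, hi⟩ c
      have h6 := hmono ⟨i, hi⟩ (A i c) (c ⟨i, hi⟩)
      show H (A i c) ≤ H (A (i + 1) c)
      rw [h5]
      exact h6
    · exact hr _
  have h7 : ∑ c : Fin M → Col, ∑ i : Fin M, (H (A (i + 1) c) - H (A i c)) ≤ r * N ^ M := by
    refine (Finset.sum_le_sum (fun c _ => h3 c)).trans ?_
    rw [Finset.sum_const, smul_eq_mul, Finset.card_univ, Fintype.card_fun, Fintype.card_fin,
      mul_comm]
  exact Nat.mul_le_mul_left _ h7

/-- The number of pairs inside a vertex set. -/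
lemma card_KK_ends' {s : ℕ} {U : Type} [Fintype U] [DecidableEq U] (Z : Finset (Fin s × U)) :
    (KK (ends (s := s) (U := U)) Z).card ≤ Z.card ^ 2 := by
  rw [sq, ← card_product]
  refine card_le_card_of_injOn (fun e => (e.1.1, e.1.2)) ?_ ?_
  · intro e he
    have := (mem_filter.1 he).2
    rw [mem_coe, mem_product]
    exact ⟨this (by simp [ends]), this (by simp [ends])⟩
  · intro e _ e' _ h
    exact Subtype.ext (Prod.ext (Prod.mk.inj h).1 (Prod.mk.inj h).2)

/-- The transversal given by `y`. -/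
def Xt {s g : ℕ} (y : Fin s → Fin g) : Finset (Fin s × Fin g) :=
  univ.filter (fun v => v.2 = y v.1)

lemma Xt_spread {s g : ℕ} (Z : Finset (Fin s × Fin g)) :
    (g : ℝ) ^ Z.card * (cnt (fun y : Fin s → Fin g => Z ⊆ Xt y) : ℝ) ≤
      Fintype.card (Fin s → Fin g) := by
  refine spread_block g (fun v => v.1) (fun v => v.2) ?_ Xt ?_ Z
  · rintro ⟨a, γ⟩ ⟨a', γ'⟩ h1 h2
    exact Prod.ext h1 h2
  · intro z v hv
    simpa [Xt] using hv

section

variable {s M : ℕ} {Q W : Type} [Fintype Q] [DecidableEq Q] [Fintype W] [DecidableEq W]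

/-- A graph in cell `i` on top of the random graphs in the cells before cell `i`. -/
def nw {k : ℕ} (L : Fin M → Fin s → Q) (i : Fin M) (c : Fin M → Pr s W → Fin k)
    (G : Finset (Pr s W)) : Finset (Pr s (Q × W)) :=
  stA L i c ∪ G.image (fun e => cellE L (i, e))

lemma spread_nw {k : ℕ} (hk : 1 ≤ k) {L : Fin M → Fin s → Q} (hL : IsCells L) {Ω : Type}
    [Fintype Ω] {ng : Ω → Finset (Pr s W)} (h : Spread k ng) :
    Spread k (fun x : (Fin M × (Fin M → Pr s W → Fin k)) × Ω => nw L x.1.1 x.1.2 (ng x.2)) := by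
  classical
  have key : ∀ i : Fin M,
      Spread k (fun x : (Fin M → Pr s W → Fin k) × Ω => nw L i x.1 (ng x.2)) := by
    intro i
    have h1 : Spread k (fun c : Fin M → Pr s W → Fin k => preA i c) := by
      intro F
      have h2 := spread_T (E := Fin M × Pr s W) hk F
      have h3 : cnt (fun c : Fin M → Pr s W → Fin k => F ⊆ preA i c) ≤
          cnt (fun c : Fin M × Pr s W → Fin k => F ⊆ T c) := by
        rw [← cnt_equiv (Equiv.curry _ _ _).symm]
        refine cnt_le_cnt (fun c hc p hp => ?_)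
        have := hc hp
        simp only [preA, mem_filter, mem_univ, true_and, T] at this
        simp only [T, mem_filter, mem_univ, true_and]
        exact this.2
      rw [Fintype.card_congr (Equiv.curry (Fin M) (Pr s W) (Fin k)).symm]
      refine le_trans ?_ h2
      gcongr
    have h4 : Spread k (fun ω => (ng ω).image (fun e => (i, e))) :=
      h.image hk _ (fun e e' he => (Prod.mk.inj he).2)
    have h5 := Spread.prod hk (fun p : Fin M × Pr s W => p.1 ≠ i) h1 h4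
      (by
        intro c p hp
        simp only [preA, mem_filter, mem_univ, true_and] at hp
        exact fun h => by
          rw [h] at hp
          exact lt_irrefl _ hp.1)
      (by
        intro ω p hp
        obtain ⟨e, _, rfl⟩ := mem_image.1 hp
        simp)
    have h6 := h5.image hk _ (cellE_injective hL)
    refine h6.mono (fun x => ?_)
    unfold nw stA
    rw [image_union]
    refine union_subset_union_right ?_
    rw [image_image]
    exact subset_of_eq rfl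
  intro F
  have h8 : Spread k (fun x : Fin M × ((Fin M → Pr s W → Fin k) × Ω) =>
      nw L x.1 x.2.1 (ng x.2.2)) := Spread.fiber key
  have h9 := h8 F
  rw [← cnt_equiv (Equiv.prodAssoc _ _ _), ← Fintype.card_congr (Equiv.prodAssoc (Fin M)
    (Fin M → Pr s W → Fin k) Ω)] at h9
  exact h9

end

/-- The colours of one cell. -/
abbrev CL (s k g : ℕ) : Type := Pr s (Fin g) → Fin k

/-- The transversals of one cell. -/
abbrev YT (s g : ℕ) : Type := Fin s → Fin g

/-- The seeds. -/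
abbrev SD (s k g M : ℕ) : Type :=
  (Fin M × (Fin M → CL s k g)) × (CL s k g × YT s g)

section

variable {s k g l ρ S M t : ℕ} {Q : Type} [Fintype Q] [DecidableEq Q]

/-- The dichotomy in one cell. -/
lemma cell_step {L : Fin M → Fin s → Q}
    (hL : IsCells L) (hl : 2 ≤ l) (hρ : 1 ≤ ρ) (hg : 1 ≤ g) (hk : 1 ≤ k) {τ ζ : ℝ}
    (hτ : (l ^ 2 : ℝ) / k + S * ((l ^ 2 : ℝ) / k) ^ (ρ + 1) ≤ τ) (hτ2 : τ ≤ 1 / 2)
    (hζ : S * ((ρ : ℝ) / g) ^ (l + 1) ≤ ζ)
    {f : ℕ → Finset (Pr s (Q × Fin g)) → Prop} {lev : ℕ → ℕ} {A : Finset ℕ} {inp : ℕ → Finset ℕ}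
    (hC : Circ mem S f lev A inp) {r : ℕ → ℕ}
    (hr : ∀ m, 1 ≤ m → (reads lev A inp m).card ≤ r m) (ht : ∀ i < S, lev i ≤ t)
    {o : ℕ} (ho : o < S) (D : Finset (Pr s (Q × Fin g))) (i : Fin M) :
    (1 - (τ + ζ)) * ((Fintype.card (CL s k g) : ℝ) * Fintype.card (YT s g)) ≤
      (cnt (fun c' : CL s k g =>
        f o (D ∪ (T c').image (fun e => cellE L (i, e)))) : ℝ) * Fintype.card (YT s g) +
      (Fintype.card (CL s k g) : ℝ) *
        (cnt (fun y : YT s g =>
          ¬ f o (D ∪ (KK ends (Xt y)).image (fun e => cellE L (i, e)))) : ℝ) +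
      2 * ((∑ c' : CL s k g,
        (pot S f lev A inp r t (D ∪ (T c').image (fun e => cellE L (i, e))) -
          pot S f lev A inp r t D) : ℕ) : ℝ) * Fintype.card (YT s g) := by
  classical
  have hψ : Function.Injective (fun e : Pr s (Fin g) => cellE L (i, e)) := fun e e' h =>
    (Prod.mk.inj (cellE_injective hL h)).2
  generalize (fun e : Pr s (Fin g) => cellE L (i, e)) = ψ at hψ ⊢
  obtain ⟨χ, hχ⟩ : ∃ χ : ℕ, χ = ∑ c' : CL s k g, (pot S f lev A inp r t (D ∪ (T c').image ψ) -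
    pot S f lev A inp r t D) := ⟨_, rfl⟩
  obtain ⟨N, hN⟩ : ∃ N : ℕ, N = cnt (fun c' : CL s k g => f o (D ∪ (T c').image ψ)) := ⟨_, rfl⟩
  obtain ⟨Z, hZ⟩ : ∃ Z : ℕ, Z = cnt (fun y : YT s g => ¬ f o (D ∪ (KK ends (Xt y)).image ψ)) :=
    ⟨_, rfl⟩
  rw [← hχ, ← hN, ← hZ]
  have hCpos : (0 : ℝ) ≤ (Fintype.card (CL s k g) : ℝ) := Nat.cast_nonneg _
  have hYpos : (0 : ℝ) ≤ (Fintype.card (YT s g) : ℝ) := Nat.cast_nonneg _
  have hτ0 : 0 ≤ τ := le_trans (by positivity) hτ
  have hζ0 : 0 ≤ ζ := le_trans (by positivity) hζ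
  have hNnn : (0 : ℝ) ≤ (N : ℝ) := Nat.cast_nonneg _
  have hZnn : (0 : ℝ) ≤ (Z : ℝ) := Nat.cast_nonneg _
  rcases Nat.lt_or_ge (2 * χ) (Fintype.card (CL s k g)) with hgood | hbad
  swap
  · -- bad cell
    have h1 : (Fintype.card (CL s k g) : ℝ) ≤ 2 * (χ : ℝ) := by exact_mod_cast hbad
    have h2 : (1 - (τ + ζ)) * ((Fintype.card (CL s k g) : ℝ) * (Fintype.card (YT s g) : ℝ)) ≤
        (Fintype.card (CL s k g) : ℝ) * (Fintype.card (YT s g) : ℝ) := by
      have : (0 : ℝ) ≤ (Fintype.card (CL s k g) : ℝ) * (Fintype.card (YT s g) : ℝ) := by positivity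
      nlinarith
    have h3 : (Fintype.card (CL s k g) : ℝ) * (Fintype.card (YT s g) : ℝ) ≤
        2 * (χ : ℝ) * (Fintype.card (YT s g) : ℝ) := by gcongr
    have h4 : (0 : ℝ) ≤ (N : ℝ) * (Fintype.card (YT s g) : ℝ) := by positivity
    have h5 : (0 : ℝ) ≤ (Fintype.card (CL s k g) : ℝ) * (Z : ℝ) := by positivity
    linarith
  -- good cell
  obtain ⟨f', hf1, hf2, hf3⟩ := freeze hC D ψ hψ
  obtain ⟨B, hB, hB2⟩ := Pool.Agent.Helper6.NegA.approx (V := Fin s × Fin g) (E := Pr s (Fin g))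
    (ΩX := YT s g) ends l ρ (l ^ 2) S g k
    (fun e => (show (ends e).card ≤ 2 from by unfold ends; exact card_le_two).trans hl) hρ hg hk
    (fun Z hZ => (card_KK_ends' Z).trans (Nat.pow_le_pow_left hZ 2)) Xt
    (fun Z => Xt_spread Z) f' (fun _ => True)
    (by
      intro j hj _
      rcases hf1 j hj with h | h | ⟨a, ha, b, hb, hab⟩
      · exact Or.inl h
      · exact Or.inr (Or.inl h)
      · exact Or.inr (Or.inr ⟨a, ha, b, hb, trivial, trivial, hab⟩))
  have hl2 : ((l ^ 2 : ℕ) : ℝ) = (l ^ 2 : ℝ) := by push_cast; rfl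
  rw [hl2] at hB2
  have hB' : (cnt B : ℝ) ≤ ζ * Fintype.card (YT s g) := by
    refine hB.trans ?_
    gcongr
  have hmem : True := trivial
  -- unchanged colours
  have hsub : ∀ H : Finset (Pr s (Fin g)), D ⊆ D ∪ H.image ψ := fun H => subset_union_left
  have hun : ∀ c' : (CL s k g), pot S f lev A inp r t (D ∪ (T c').image ψ) = pot S f lev A inp r t D →
      (∀ i < S, i ∈ A → ∀ j ∈ inp i, (f j (D ∪ (T c').image ψ) ↔ f j D)) ∧
      ∀ i < S, (f i (D ∪ (T c').image ψ) ↔ f' i (T c')) := by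
    intro c' hc'
    have h1 := same_of_pot hC hr ht (hsub (T c')) hc'.symm
    have h2 : ∀ i < S, i ∈ A → ∀ j ∈ inp i, (f j (D ∪ (T c').image ψ) ↔ f j D) :=
      fun i hi hA j hj => (h1 i hi hA j hj).symm
    exact ⟨h2, hf3 (T c') h2⟩
  -- the number of changed colours
  have hch : cnt (fun c' : (CL s k g) => pot S f lev A inp r t (D ∪ (T c').image ψ) ≠
      pot S f lev A inp r t D) ≤ χ := by
    rw [cnt_eq_sum, hχ]
    refine sum_le_sum (fun c' _ => ?_)
    split_ifs with hc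
    · have h1 := pot_mono (t := t) hC hr (hsub (T c'))
      omega
    · exact Nat.zero_le _
  -- the bits read agree on the positive instances
  have hD0 : ∀ i < S, (f i D ↔ f' i ∅) := by
    have h1 := hf3 ∅ (fun i hi hA j hj => by simp)
    intro i hi
    have := h1 i hi
    rwa [image_empty, union_empty] at this
  have hpos : ∀ y, ¬ B y → ∀ i < S, (f i (D ∪ (KK ends (Xt y)).image ψ) ↔
      f' i (KK ends (Xt y))) := by
    intro y hy
    refine hf2 _ (fun i hi hA j hj => ?_)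
    have hjS : j < S := lt_trans ((hC.any i hi hA).1 j hj).1 hi
    by_cases hfj : f j D
    · have h1 := (hD0 j hjS).1 hfj
      exact ⟨fun _ => hfj, fun _ => mono_of_gates hf1 (empty_subset _) j hjS h1⟩
    · constructor
      · intro h2
        exfalso
        rcases hB2 j hjS trivial with h | h
        · exact h y hy h2
        · have h3 : cnt (fun c : (CL s k g) => f' j (T c)) ≤ χ := by
            refine le_trans (cnt_le_cnt (fun c' hc' => ?_)) hch
            intro heq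
            obtain ⟨h4, h5⟩ := hun c' heq
            exact hfj ((h4 i hi hA j hj).1 ((h5 j hjS).2 hc'))
          have h6 : (1 / 2 : ℝ) * (Fintype.card (CL s k g) : ℝ) ≤ (χ : ℝ) := by
            have h7 : (cnt (fun c : (CL s k g) => f' j (T c)) : ℝ) ≤ (χ : ℝ) := by exact_mod_cast h3
            refine le_trans (le_trans ?_ h) h7
            exact mul_le_mul_of_nonneg_right (by linarith) hCpos
          have h8 : (2 : ℝ) * (χ : ℝ) < (Fintype.card (CL s k g) : ℝ) := by exact_mod_cast hgood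
          linarith
      · exact fun h => absurd h hfj
  -- the output
  rcases hB2 o ho trivial with h | h
  · have h1 : Fintype.card (YT s g) ≤ cnt B + Z := by
      rw [← cnt_add_not B, hZ]
      have := cnt_le_cnt (P := fun y => ¬ B y)
        (Q := fun y => ¬ f o (D ∪ (KK ends (Xt y)).image ψ))
        (fun y hy h3 => h y hy ((hpos y hy o ho).1 h3))
      omega
    have h2 : (Fintype.card (YT s g) : ℝ) ≤ (cnt B : ℝ) + (Z : ℝ) := by exact_mod_cast h1
    have h4 : (1 - (τ + ζ)) * (Fintype.card (YT s g) : ℝ) ≤ (Z : ℝ) := by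
      have h5 : 0 ≤ τ * (Fintype.card (YT s g) : ℝ) := by positivity
      linarith
    have h6 := mul_le_mul_of_nonneg_left h4 hCpos
    have h7 : (0 : ℝ) ≤ (N : ℝ) * (Fintype.card (YT s g) : ℝ) := by positivity
    have h8 : (0 : ℝ) ≤ 2 * (χ : ℝ) * (Fintype.card (YT s g) : ℝ) := by positivity
    calc (1 - (τ + ζ)) * ((Fintype.card (CL s k g) : ℝ) * (Fintype.card (YT s g) : ℝ)) =
          (Fintype.card (CL s k g) : ℝ) * ((1 - (τ + ζ)) * (Fintype.card (YT s g) : ℝ)) := by ring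
      _ ≤ (Fintype.card (CL s k g) : ℝ) * (Z : ℝ) := h6
      _ ≤ _ := by linarith
  · have h1 : cnt (fun c : (CL s k g) => f' o (T c)) ≤ N + χ := by
      rw [hN]
      refine le_trans (cnt_le_cnt (Q := fun c' : (CL s k g) => f o (D ∪ (T c').image ψ) ∨
        pot S f lev A inp r t (D ∪ (T c').image ψ) ≠ pot S f lev A inp r t D) ?_)
        ((cnt_or_le _ _).trans (by omega))
      intro c' hc'
      by_cases heq : pot S f lev A inp r t (D ∪ (T c').image ψ) = pot S f lev A inp r t D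
      · exact Or.inl (((hun c' heq).2 o ho).2 hc')
      · exact Or.inr heq
    have h2 : (cnt (fun c : (CL s k g) => f' o (T c)) : ℝ) ≤ (N : ℝ) + (χ : ℝ) := by exact_mod_cast h1
    have h3 : (1 - (τ + ζ)) * (Fintype.card (CL s k g) : ℝ) ≤ (N : ℝ) + (χ : ℝ) := by
      refine le_trans ?_ (h.trans h2)
      exact mul_le_mul_of_nonneg_right (by linarith) hCpos
    have h6 := mul_le_mul_of_nonneg_right h3 hYpos
    have h7 : (0 : ℝ) ≤ (Fintype.card (CL s k g) : ℝ) * (Z : ℝ) := by positivity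
    have h8 : (0 : ℝ) ≤ (χ : ℝ) * (Fintype.card (YT s g) : ℝ) := by positivity
    calc (1 - (τ + ζ)) * ((Fintype.card (CL s k g) : ℝ) * (Fintype.card (YT s g) : ℝ)) =
          (1 - (τ + ζ)) * (Fintype.card (CL s k g) : ℝ) * (Fintype.card (YT s g) : ℝ) := by ring
      _ ≤ ((N : ℝ) + (χ : ℝ)) * (Fintype.card (YT s g) : ℝ) := h6
      _ ≤ _ := by linarith

end

/-- The distributions are hard. -/
theorem hard2_core {s k g l ρ S M t : ℕ} {Q : Type} [Fintype Q] [DecidableEq Q] (hM : 0 < M)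
    {L : Fin M → Fin s → Q} (hL : IsCells L) (hl : 2 ≤ l) (hρ : 1 ≤ ρ) (hg : 1 ≤ g)
    (hk : 1 ≤ k) {τ ζ : ℝ} (hτ : (l ^ 2 : ℝ) / k + S * ((l ^ 2 : ℝ) / k) ^ (ρ + 1) ≤ τ)
    (hτ2 : τ ≤ 1 / 2) (hζ : S * ((ρ : ℝ) / g) ^ (l + 1) ≤ ζ)
    {f : ℕ → Finset (Pr s (Q × Fin g)) → Prop} {lev : ℕ → ℕ} {A : Finset ℕ} {inp : ℕ → Finset ℕ}
    (hC : Circ mem S f lev A inp) {r : ℕ → ℕ}
    (hr : ∀ m, 1 ≤ m → (reads lev A inp m).card ≤ r m) (hlev : ∀ i < S, lev i ≤ t)
    {o : ℕ} (ho : o < S) :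
    (1 - (τ + ζ + 2 * (∏ m ∈ range t, (1 + (r (m + 1) : ℝ))) / (M : ℝ))) *
        (Fintype.card (SD s k g M) : ℝ) ≤
      (cnt (fun x : SD s k g M => f o (nw L x.1.1 x.1.2 (T x.2.1))) : ℝ) +
      (cnt (fun x : SD s k g M => ¬ f o (nw L x.1.1 x.1.2 (KK ends (Xt x.2.2)))) : ℝ) := by
  classical
  obtain ⟨P, hP⟩ : ∃ P : ℕ, P = ∏ m ∈ range t, (1 + r (m + 1)) := ⟨_, rfl⟩
  obtain ⟨F, hF⟩ : ∃ F : Fin M × (Fin M → CL s k g) → ℕ, F = fun p => ∑ c' : CL s k g,
    (pot S f lev A inp r t (stA L p.1 p.2 ∪ (T c').image (fun e => cellE L (p.1, e))) -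
      pot S f lev A inp r t (stA L p.1 p.2)) := ⟨_, rfl⟩
  have htel : ∑ p, F p ≤ Fintype.card (CL s k g) * (P * Fintype.card (CL s k g) ^ M) := by
    rw [hF]
    exact tel_sum (Col := CL s k g) (Γ := Finset (Pr s (Q × Fin g))) M P
      (fun m c => stA L m c) (fun i G c' => G ∪ (T c').image (fun e => cellE L (i, e)))
      (pot S f lev A inp r t) (fun G => hP ▸ (pot_lt hr t G).le)
      (fun m c c' h => stA_congr L m c c' h)
      (fun i c => stA_succ L i c) (fun i G c' => pot_mono hC hr subset_union_left)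
  have hstep : ∀ p : Fin M × (Fin M → CL s k g),
      (1 - (τ + ζ)) * ((Fintype.card (CL s k g) : ℝ) * Fintype.card (YT s g)) ≤
      (cnt (fun c' : CL s k g =>
        f o (nw L p.1 p.2 (T c'))) : ℝ) * Fintype.card (YT s g) +
      (Fintype.card (CL s k g) : ℝ) *
        (cnt (fun y : YT s g => ¬ f o (nw L p.1 p.2 (KK ends (Xt y)))) : ℝ) +
      2 * ((F p : ℕ) : ℝ) * Fintype.card (YT s g) := by
    intro p
    rw [hF]
    exact cell_step (t := t) hL hl hρ hg hk hτ hτ2 hζ hC hr hlev ho (stA L p.1 p.2) p.1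
  -- the two counts
  have e1 : (cnt (fun x : SD s k g M => f o (nw L x.1.1 x.1.2 (T x.2.1))) : ℝ) =
      ∑ p : Fin M × (Fin M → CL s k g), (cnt (fun c' : CL s k g =>
        f o (nw L p.1 p.2 (T c'))) : ℝ) * (Fintype.card (YT s g) : ℝ) := by
    rw [cnt_fiber, Nat.cast_sum]
    refine sum_congr rfl (fun p _ => ?_)
    rw [← Nat.cast_mul, ← cnt_fst (Ω' := YT s g)]
  have e2 : (cnt (fun x : SD s k g M => ¬ f o (nw L x.1.1 x.1.2 (KK ends (Xt x.2.2)))) : ℝ) =
      ∑ p : Fin M × (Fin M → CL s k g), (Fintype.card (CL s k g) : ℝ) *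
        (cnt (fun y : YT s g => ¬ f o (nw L p.1 p.2 (KK ends (Xt y)))) : ℝ) := by
    rw [cnt_fiber, Nat.cast_sum]
    refine sum_congr rfl (fun p _ => ?_)
    rw [← Nat.cast_mul, ← cnt_snd (Ω := CL s k g)]
  have e4 : (Fintype.card (Fin M × (Fin M → CL s k g)) : ℝ) =
      (M : ℝ) * (Fintype.card (CL s k g) : ℝ) ^ M := by
    rw [Fintype.card_prod, Fintype.card_fin, Fintype.card_fun (α := Fin M), Fintype.card_fin]
    push_cast
    rfl
  have e3 : (Fintype.card (SD s k g M) : ℝ) =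
      ((M : ℝ) * (Fintype.card (CL s k g) : ℝ) ^ M) *
        ((Fintype.card (CL s k g) : ℝ) * (Fintype.card (YT s g) : ℝ)) := by
    rw [← e4, Fintype.card_prod (Fin M × (Fin M → CL s k g)) (CL s k g × YT s g),
      Fintype.card_prod (CL s k g) (YT s g)]
    push_cast
    rfl
  rw [e1, e2, e3]
  have hsum := sum_le_sum (fun (p : Fin M × (Fin M → CL s k g)) (_ : p ∈ univ) => hstep p)
  rw [sum_add_distrib, sum_add_distrib, sum_const, card_univ, nsmul_eq_mul, e4] at hsum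
  have e5 : ∑ p : Fin M × (Fin M → CL s k g), 2 * ((F p : ℕ) : ℝ) * (Fintype.card (YT s g) : ℝ) ≤
      2 * ((Fintype.card (CL s k g) : ℝ) * ((P : ℝ) * (Fintype.card (CL s k g) : ℝ) ^ M)) *
        (Fintype.card (YT s g) : ℝ) := by
    rw [← sum_mul, ← mul_sum, ← Nat.cast_sum]
    have : ((∑ p, F p : ℕ) : ℝ) ≤
        (Fintype.card (CL s k g) : ℝ) * ((P : ℝ) * (Fintype.card (CL s k g) : ℝ) ^ M) := by
      exact_mod_cast htel
    gcongr
  have hPR : (∏ m ∈ range t, (1 + (r (m + 1) : ℝ))) = (P : ℝ) := by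
    rw [hP]
    push_cast
    rfl
  have hMR : (M : ℝ) ≠ 0 := by
    have : (0 : ℝ) < M := by exact_mod_cast hM
    exact this.ne'
  rw [hPR]
  generalize (Fintype.card (CL s k g) : ℝ) = cC at hsum e5 ⊢
  generalize (Fintype.card (YT s g) : ℝ) = cY at hsum e5 ⊢
  have e6 : (1 - (τ + ζ + 2 * (P : ℝ) / (M : ℝ))) * (((M : ℝ) * cC ^ M) * (cC * cY)) =
      ((M : ℝ) * cC ^ M) * ((1 - (τ + ζ)) * (cC * cY)) - 2 * (cC * ((P : ℝ) * cC ^ M)) * cY := by
    field_simp
    ring
  rw [e6]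
  linarith

/-- The distributions are negatively correlated, and the positive ones have cliques. -/
theorem hard2_dist {s k g l ρ S M t : ℕ} {Q : Type} [Fintype Q] [DecidableEq Q] (hM : 0 < M)
    {L : Fin M → Fin s → Q} (hL : IsCells L) (hl : 2 ≤ l) (hρ : 1 ≤ ρ) (hg : 1 ≤ g)
    (hk : 1 ≤ k) {τ ζ : ℝ} (hτ : (l ^ 2 : ℝ) / k + S * ((l ^ 2 : ℝ) / k) ^ (ρ + 1) ≤ τ)
    (hτ2 : τ ≤ 1 / 2) (hζ : S * ((ρ : ℝ) / g) ^ (l + 1) ≤ ζ) (r : ℕ → ℕ) :
    HardDist s k t S r
      (τ + ζ + 2 * (∏ m ∈ range t, (1 + (r (m + 1) : ℝ))) / (M : ℝ)) (Q × Fin g) (SD s k g M)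
      (fun x => nw L x.1.1 x.1.2 (T x.2.1)) (fun x => nw L x.1.1 x.1.2 (KK ends (Xt x.2.2))) := by
  classical
  constructor
  · -- negative correlation
    have h1 : Spread k (fun x : CL s k g × YT s g => T x.1) := by
      intro F
      have h := spread_T (E := Pr s (Fin g)) hk F
      rw [cnt_fst (Ω' := YT s g) (fun c : CL s k g => F ⊆ T c), Fintype.card_prod]
      push_cast
      have h0 : (0 : ℝ) ≤ (Fintype.card (YT s g) : ℝ) := Nat.cast_nonneg _
      have := mul_le_mul_of_nonneg_right h h0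
      calc _ = (k : ℝ) ^ F.card * (cnt (fun c : CL s k g => F ⊆ T c) : ℝ) *
            (Fintype.card (YT s g) : ℝ) := by ring
        _ ≤ _ := this
        _ = _ := by ring
    exact spread_nw (ng := fun x : CL s k g × YT s g => T x.1) hk hL h1
  · -- the clique
    rintro ⟨⟨i, c⟩, ⟨c', y⟩⟩
    refine ⟨fun a => (L i a, y a), fun a b hab => ?_⟩
    refine mem_union_right _ (mem_image.2 ⟨⟨((a, y a), (b, y b)), hab⟩, ?_, rfl⟩)
    refine mem_filter.2 ⟨mem_univ _, fun v hv => ?_⟩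
    simp only [ends, mem_insert, mem_singleton] at hv
    rcases hv with rfl | rfl <;> simp [Xt]
  · -- hardness
    intro f lev A inp o hC hlev hr ho
    exact hard2_core hM hL hl hρ hg hk hτ hτ2 hζ hC hr hlev ho

/-- Existence of hard distributions. -/
theorem exists_hard2 (s k g l ρ S : ℕ) (hl : 2 ≤ l) (hρ : 1 ≤ ρ) (hg : 1 ≤ g)
    (hk : 1 ≤ k) (τ ζ : ℝ) (hτ : (l ^ 2 : ℝ) / k + S * ((l ^ 2 : ℝ) / k) ^ (ρ + 1) ≤ τ)
    (hτ2 : τ ≤ 1 / 2) (hζ : S * ((ρ : ℝ) / g) ^ (l + 1) ≤ ζ) (t : ℕ) (r : ℕ → ℕ) (q : ℕ)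
    (hq : q.Prime) (hsq : s ≤ q) :
    ∃ (U Ω : Type) (_ : Fintype U) (_ : DecidableEq U) (_ : Fintype Ω) (_ : Nonempty Ω)
      (ng ps : Ω → Finset (Pr s U)),
      Fintype.card U = q * g ∧
      HardDist s k t S r
        (τ + ζ + 2 * (∏ m ∈ range t, (1 + (r (m + 1) : ℝ))) / (q : ℝ) ^ 2) U Ω ng ps := by
  obtain ⟨L, hL⟩ := exists_cells hq hsq
  have hq0 : NeZero q := ⟨hq.ne_zero⟩
  have hqq : 0 < q * q := Nat.mul_pos hq.pos hq.pos
  have hi1 : Nonempty (Fin (q * q)) := ⟨⟨0, hqq⟩⟩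
  have hi2 : Nonempty (Fin g) := ⟨⟨0, hg⟩⟩
  have hi3 : Nonempty (Fin k) := ⟨⟨0, hk⟩⟩
  have hD := hard2_dist (S := S) (t := t) hqq hL hl hρ hg hk hτ hτ2 hζ r
  have hqc : ((q * q : ℕ) : ℝ) = (q : ℝ) ^ 2 := by
    push_cast
    ring
  rw [hqc] at hD
  exact ⟨ZMod q × Fin g, SD s k g (q * q), _, _, _, inferInstance, _, _, by
    rw [Fintype.card_prod, ZMod.card, Fintype.card_fin], hD⟩

end Pool.Agent.Helper71.Neg
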