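import Pool.Agent.Helper71.Neg.Base

/-!
# Negatively correlated random sets of pairs
-/

set_option autoImplicit false

namespace Pool.Agent.Helper71.Neg

open Finset

/-- `k ^ |F| P(F ⊆ D) ≤ (k - 1) ^ |F|` for all `F`. -/
def Spread {Ω E : Type} [Fintype Ω] (k : ℕ) (D : Ω → Finset E) : Prop :=
  ∀ F : Finset E, (k : ℝ) ^ F.card * (cnt (fun ω => F ⊆ D ω) : ℝ) ≤
    ((k : ℝ) - 1) ^ F.card * (Fintype.card Ω : ℝ)

section

variable {Ω Ω₁ Ω₂ E E' : Type} [Fintype Ω] [Fintype Ω₁] [Fintype Ω₂]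

lemma Spread.mono {k : ℕ} {D D' : Ω → Finset E} (h : Spread k D) (hD : ∀ ω, D' ω ⊆ D ω) :
    Spread k D' := by
  intro F
  refine le_trans ?_ (h F)
  have : cnt (fun ω => F ⊆ D' ω) ≤ cnt (fun ω => F ⊆ D ω) :=
    cnt_le_cnt (fun ω hω => hω.trans (hD ω))
  gcongr

lemma Spread.image [DecidableEq E] {k : ℕ} (hk : 1 ≤ k) {D : Ω → Finset E'} (h : Spread k D)
    (ψ : E' → E) (hψ : Function.Injective ψ) : Spread k (fun ω => (D ω).image ψ) := by
  classical
  intro F
  by_cases hF : ∀ e ∈ F, ∃ e', ψ e' = e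
  · have h1 : (F.preimage ψ hψ.injOn).image ψ = F := by
      ext e
      simp only [mem_image, mem_preimage]
      constructor
      · rintro ⟨e', he', rfl⟩
        exact he'
      · intro he
        obtain ⟨e', rfl⟩ := hF e he
        exact ⟨e', he, rfl⟩
    have h2 : (F.preimage ψ hψ.injOn).card = F.card := by
      conv_rhs => rw [← h1]
      rw [card_image_of_injective _ hψ]
    have h3 := h (F.preimage ψ hψ.injOn)
    rw [h2] at h3
    refine le_trans (le_of_eq ?_) h3
    congr 2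
    refine cnt_congr' (fun ω => ?_)
    constructor
    · intro hs e' he'
      have := hs (mem_preimage.1 he')
      obtain ⟨e'', h4, h5⟩ := mem_image.1 this
      rwa [← hψ h5]
    · intro hs
      rw [← h1]
      exact image_subset_image hs
  · have h0 : cnt (fun ω => F ⊆ (D ω).image ψ) = 0 := by
      refine cnt_false' (fun ω hω => hF (fun e he => ?_))
      obtain ⟨e', _, h5⟩ := mem_image.1 (hω he)
      exact ⟨e', h5⟩
    rw [h0]
    have : (0 : ℝ) ≤ (k : ℝ) - 1 := by
      have : (1 : ℝ) ≤ k := by exact_mod_cast hk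
      linarith
    simp only [Nat.cast_zero, mul_zero]
    positivity

lemma Spread.fiber {k : ℕ} {D : Ω₁ × Ω₂ → Finset E} (h : ∀ ω, Spread k (fun ω' => D (ω, ω'))) :
    Spread k D := by
  intro F
  rw [cnt_fiber, Nat.cast_sum, mul_sum, Fintype.card_prod, Nat.cast_mul]
  calc _ ≤ ∑ _ω : Ω₁, ((k : ℝ) - 1) ^ F.card * (Fintype.card Ω₂ : ℝ) :=
        sum_le_sum (fun ω _ => h ω F)
    _ = _ := by
        rw [sum_const, card_univ, nsmul_eq_mul]
        ring

lemma Spread.prod [DecidableEq E] {k : ℕ} (hk : 1 ≤ k) {D₁ : Ω₁ → Finset E} {D₂ : Ω₂ → Finset E}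
    (p : E → Prop) (h₁ : Spread k D₁) (h₂ : Spread k D₂) (hp₁ : ∀ ω, ∀ e ∈ D₁ ω, p e)
    (hp₂ : ∀ ω, ∀ e ∈ D₂ ω, ¬ p e) :
    Spread k (fun ω : Ω₁ × Ω₂ => D₁ ω.1 ∪ D₂ ω.2) := by
  classical
  intro F
  have hc : F.card = (F.filter p).card + (F.filter (fun e => ¬ p e)).card :=
    (card_filter_add_card_filter_not _).symm
  have h3 : cnt (fun ω : Ω₁ × Ω₂ => F ⊆ D₁ ω.1 ∪ D₂ ω.2) ≤
      cnt (fun ω => F.filter p ⊆ D₁ ω) * cnt (fun ω => F.filter (fun e => ¬ p e) ⊆ D₂ ω) := by
    rw [← cnt_and_prod]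
    refine cnt_le_cnt (fun ω hω => ⟨fun e he => ?_, fun e he => ?_⟩)
    · rw [mem_filter] at he
      rcases mem_union.1 (hω he.1) with h | h
      · exact h
      · exact absurd he.2 (hp₂ _ _ h)
    · rw [mem_filter] at he
      rcases mem_union.1 (hω he.1) with h | h
      · exact absurd (hp₁ _ _ h) he.2
      · exact h
  have hk1 : (0 : ℝ) ≤ (k : ℝ) - 1 := by
    have : (1 : ℝ) ≤ k := by exact_mod_cast hk
    linarith
  rw [hc, pow_add, pow_add, Fintype.card_prod, Nat.cast_mul]
  calc (k : ℝ) ^ (F.filter p).card * (k : ℝ) ^ (F.filter (fun e => ¬ p e)).card *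
        (cnt (fun ω : Ω₁ × Ω₂ => F ⊆ D₁ ω.1 ∪ D₂ ω.2) : ℝ)
      ≤ (k : ℝ) ^ (F.filter p).card * (k : ℝ) ^ (F.filter (fun e => ¬ p e)).card *
        ((cnt (fun ω => F.filter p ⊆ D₁ ω) : ℝ) *
          (cnt (fun ω => F.filter (fun e => ¬ p e) ⊆ D₂ ω) : ℝ)) := by
        gcongr
        exact_mod_cast h3
    _ = ((k : ℝ) ^ (F.filter p).card * (cnt (fun ω => F.filter p ⊆ D₁ ω) : ℝ)) *
        ((k : ℝ) ^ (F.filter (fun e => ¬ p e)).card *
          (cnt (fun ω => F.filter (fun e => ¬ p e) ⊆ D₂ ω) : ℝ)) := by ring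
    _ ≤ (((k : ℝ) - 1) ^ (F.filter p).card * (Fintype.card Ω₁ : ℝ)) *
        (((k : ℝ) - 1) ^ (F.filter (fun e => ¬ p e)).card * (Fintype.card Ω₂ : ℝ)) := by
        refine mul_le_mul (h₁ _) (h₂ _) (by positivity) (by positivity)
    _ = _ := by ring

end

/-- Independent pairs, each absent with probability `1 / k`. -/
lemma spread_T {E : Type} [Fintype E] [DecidableEq E] {k : ℕ} (hk : 1 ≤ k) :
    Spread k (fun c : E → Fin k => T c) := by
  classical
  intro F
  have h1 : cnt (fun c : E → Fin k => F ⊆ T c) =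
      (Fintype.piFinset (fun e => if e ∈ F then (univ.filter (fun x : Fin k => (x : ℕ) ≠ 0))
        else (univ : Finset (Fin k)))).card := by
    rw [cnt_eq]
    congr 1
    ext c
    rw [mem_filter, Fintype.mem_piFinset]
    constructor
    · intro h e
      by_cases he : e ∈ F
      · rw [if_pos he]
        have := h.2 he
        simpa [T] using this
      · rw [if_neg he]
        exact mem_univ _
    · intro h
      refine ⟨mem_univ _, fun e he => ?_⟩
      have := h e
      rw [if_pos he] at this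
      simpa [T] using this
  have h0 : (univ.filter (fun x : Fin k => (x : ℕ) ≠ 0)).card = k - 1 := by
    have h3 := card_filter_add_card_filter_not (s := (univ : Finset (Fin k)))
      (p := fun x : Fin k => (x : ℕ) = 0)
    have h4 : (univ.filter (fun x : Fin k => (x : ℕ) = 0)).card = 1 := by
      rw [card_eq_one]
      refine ⟨⟨0, by omega⟩, ?_⟩
      ext x
      simp [Fin.ext_iff]
    rw [h4, card_univ, Fintype.card_fin] at h3
    have h7 : (univ.filter (fun x : Fin k => (x : ℕ) ≠ 0)).card =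
      (univ.filter (fun x : Fin k => ¬ (x : ℕ) = 0)).card := rfl
    rw [h7]
    omega
  rw [h1, Fintype.card_piFinset]
  have h2 : ∏ e, (if e ∈ F then (univ.filter (fun x : Fin k => (x : ℕ) ≠ 0))
      else (univ : Finset (Fin k))).card = ∏ e, (if e ∈ F then (k - 1) else k) := by
    refine prod_congr rfl (fun e _ => ?_)
    by_cases he : e ∈ F
    · rw [if_pos he, if_pos he, h0]
    · rw [if_neg he, if_neg he, card_univ, Fintype.card_fin]
  rw [h2, prod_ite, prod_const, prod_const, Fintype.card_fun, Fintype.card_fin]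
  have h5 : (univ.filter (fun e => e ∈ F)).card = F.card := by
    congr 1
    ext e
    simp
  have h6 : Fintype.card E = F.card + (univ.filter (fun e => e ∉ F)).card := by
    rw [← card_univ, ← card_filter_add_card_filter_not (s := (univ : Finset E))
      (p := fun e => e ∈ F), h5]
  rw [h5, h6, pow_add]
  push_cast
  rw [Nat.cast_sub hk]
  push_cast
  apply le_of_eq
  ring

end Pool.Agent.Helper71.Neg
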