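import Pool.Agent.Helper71.Neg.Defs

/-!
# Statements of the modules (with sorry; do not import this file)
-/

set_option autoImplicit false

namespace Pool.Agent.Helper71.Neg.Stat

open Finset Pool.Agent.Helper71.Neg

/-- MODULE (1), helper6, file Pool/Agent/Helper6/NegApprox.lean. -/
theorem approx {V E ΩX : Type} [Fintype V] [DecidableEq V] [Fintype E] [DecidableEq E] [Fintype ΩX]
    (en : E → Finset V) (l ρ L S g k : ℕ) (hl : ∀ e, (en e).card ≤ l) (hρ : 1 ≤ ρ) (hg : 1 ≤ g)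
    (hk : 1 ≤ k) (hL : ∀ Z : Finset V, Z.card ≤ l → (KK en Z).card ≤ L)
    (X : ΩX → Finset V)
    (hX : ∀ Z : Finset V, (g : ℝ) ^ Z.card * (cnt (fun x => Z ⊆ X x) : ℝ) ≤ Fintype.card ΩX)
    (f : ℕ → Finset E → Prop) (P : ℕ → Prop)
    (hf : ∀ i < S, P i → (∃ b : Prop, ∀ G, f i G ↔ b) ∨ (∃ e, ∀ G, f i G ↔ e ∈ G) ∨
      (∃ j < i, ∃ m < i, P j ∧ P m ∧
        ((∀ G, f i G ↔ (f j G ∧ f m G)) ∨ (∀ G, f i G ↔ (f j G ∨ f m G))))) :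
    ∃ B : ΩX → Prop, (cnt B : ℝ) ≤ S * ((ρ : ℝ) / g) ^ (l + 1) * Fintype.card ΩX ∧
      ∀ i < S, P i → (∀ x, ¬ B x → ¬ f i (KK en (X x))) ∨
        (1 - ((L : ℝ) / k + S * ((L : ℝ) / k) ^ (ρ + 1))) * (Fintype.card (E → Fin k) : ℝ) ≤
          (cnt (fun c : E → Fin k => f i (T c)) : ℝ) := by
  sorry

/-- MODULE (4), helper46, file Pool/Agent/Helper46/NegTel.lean: telescoping. The state `A i c`
depends only on the colours `c j`, `j < i`; `H` counts something between `0` and `r` and does not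
decrease. For most `(i, c)` a fresh colour increases `H` by less than `1 / 2` on average. -/
theorem telescope {Col Γ : Type} [Fintype Col] (M r : ℕ) (A : ℕ → (Fin M → Col) → Γ)
    (add : Fin M → Γ → Col → Γ) (H : Γ → ℕ) (hr : ∀ x, H x ≤ r)
    (hA : ∀ (i : ℕ) (c c' : Fin M → Col), (∀ j : Fin M, (j : ℕ) < i → c j = c' j) → A i c = A i c')
    (hstep : ∀ (i : Fin M) (c : Fin M → Col), A (i + 1) c = add i (A i c) (c i))
    (hmono : ∀ (i : Fin M) (x : Γ) (c' : Col), H x ≤ H (add i x c')) :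
    cnt (fun p : Fin M × (Fin M → Col) =>
      Fintype.card Col ≤ 2 * ∑ c', (H (add p.1 (A p.1 p.2) c') - H (A p.1 p.2))) ≤
    2 * r * Fintype.card Col ^ M := by
  sorry

/-- helper46, same folder: independent colours. -/
theorem cnt_zero {E : Type} [Fintype E] [DecidableEq E] (k : ℕ) (hk : 1 ≤ k) (F : Finset E) :
    k ^ F.card * cnt (fun c : E → Fin k => ∀ e ∈ F, (c e : ℕ) = 0) = k ^ Fintype.card E := by
  sorry

theorem cnt_ne {E : Type} [Fintype E] [DecidableEq E] (k : ℕ) (hk : 1 ≤ k) (F : Finset E) :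
    k ^ F.card * cnt (fun c : E → Fin k => ∀ e ∈ F, (c e : ℕ) ≠ 0) =
      (k - 1) ^ F.card * k ^ Fintype.card E := by
  sorry

/-- MODULE (3), helper14, file Pool/Agent/Helper14/NegEnd.lean. -/
theorem end_clique {s k t S : ℕ} {r : ℕ → ℕ} {err : ℝ} {U Ω : Type} [Fintype U] [DecidableEq U]
    [Fintype Ω] [Nonempty Ω] {ng ps : Ω → Finset (Pr s U)} (hk : 1 ≤ k) (hs2 : 2 ≤ s)
    (D : HardDist s k t S r err U Ω ng ps)
    (n K : ℕ) (hs : s ≤ K) (hn : s * Fintype.card U + (K - s) ≤ n) (δ : ℝ)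
    (Ω' : Type) [Fintype Ω'] (w : Ω' → ℝ) (f : Ω' → ℕ → SimpleGraph (Fin n) → Prop)
    (lev : Ω' → ℕ → ℕ) (A : Ω' → Finset ℕ) (inp : Ω' → ℕ → Finset ℕ) (out : Ω' → ℕ)
    (hw : ∀ ω, 0 ≤ w ω) (hw1 : ∑ ω, w ω = 1)
    (hC : ∀ ω, Circ (fun (e : Fin n × Fin n) (G : SimpleGraph (Fin n)) => G.Adj e.1 e.2) S
      (f ω) (lev ω) (A ω) (inp ω))
    (hlev : ∀ ω, ∀ i < S, lev ω i ≤ t)
    (hr : ∀ ω m, 1 ≤ m → (reads (lev ω) (A ω) (inp ω) m).card ≤ r m)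
    (hout : ∀ ω, out ω < S)
    (hsucc : ∀ G : SimpleGraph (Fin n), 1 / 2 + δ ≤
      ∑ ω, w ω * @ite ℝ (f ω (out ω) G ↔ ¬ G.CliqueFree K) (Classical.dec _) 1 0) :
    2 * δ ≤ err + (Fintype.card U : ℝ) ^ s * (1 - 1 / (k : ℝ)) ^ (s * (s - 1) / 2) := by
  sorry

/-- The number of cliques of all sizes (the empty one included). -/
noncomputable def numCliques {n : ℕ} (G : SimpleGraph (Fin n)) : ℕ :=
  cnt (fun X : Finset (Fin n) => G.IsClique X)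

/-- MODULE (3#), the counting version: the gates `out ω b` give the binary digits of the number of
cliques. -/
theorem end_count {s k t S : ℕ} {r : ℕ → ℕ} {err : ℝ} {U Ω : Type} [Fintype U] [DecidableEq U]
    [Fintype Ω] [Nonempty Ω] {ng ps : Ω → Finset (Pr s U)} (hk : 1 ≤ k)
    (n : ℕ) (D : HardDist s k t (S + n + 2) r err U Ω ng ps)
    (w₀ : ℕ) (hw2 : 2 ≤ w₀) (hs : n ^ w₀ + 1 ≤ 2 ^ s) (hn : s * Fintype.card U ≤ n) (δ : ℝ)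
    (Ω' : Type) [Fintype Ω'] (w : Ω' → ℝ) (f : Ω' → ℕ → SimpleGraph (Fin n) → Prop)
    (lev : Ω' → ℕ → ℕ) (A : Ω' → Finset ℕ) (inp : Ω' → ℕ → Finset ℕ) (out : Ω' → ℕ → ℕ)
    (hw : ∀ ω, 0 ≤ w ω) (hw1 : ∑ ω, w ω = 1)
    (hC : ∀ ω, Circ (fun (e : Fin n × Fin n) (G : SimpleGraph (Fin n)) => G.Adj e.1 e.2) S
      (f ω) (lev ω) (A ω) (inp ω))
    (hlev : ∀ ω, ∀ i < S, lev ω i ≤ t)
    (hr : ∀ ω m, 1 ≤ m → (reads (lev ω) (A ω) (inp ω) m).card ≤ r m)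
    (hout : ∀ ω b, b ≤ n → out ω b < S)
    (hsucc : ∀ G : SimpleGraph (Fin n), 1 / 2 + δ ≤
      ∑ ω, w ω * @ite ℝ (∀ b ≤ n, (f ω (out ω b) G ↔ (numCliques G).testBit b = true))
        (Classical.dec _) 1 0) :
    2 * δ ≤ err + ((n : ℝ)) ^ w₀ * (1 - 1 / (k : ℝ)) ^ (w₀ * (w₀ - 1) / 2) := by
  sorry

/-- MODULE (2), helper71: existence of hard distributions. -/
theorem exists_hard (s k g l ρ S : ℕ) (hs : 2 ≤ s) (hl : 2 ≤ l) (hρ : 1 ≤ ρ) (hg : 1 ≤ g)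
    (hk : 1 ≤ k) (τ ζ : ℝ) (hτ : (l ^ 2 : ℝ) / k + S * ((l ^ 2 : ℝ) / k) ^ (ρ + 1) ≤ τ)
    (hτ2 : τ ≤ 1 / 2) (hζ : S * ((ρ : ℝ) / g) ^ (l + 1) ≤ ζ) (t : ℕ) (q r : ℕ → ℕ)
    (hq : ∀ m, (q m).Prime ∧ s ≤ q m) :
    ∃ (U Ω : Type) (_ : Fintype U) (_ : DecidableEq U) (_ : Fintype Ω) (_ : Nonempty Ω)
      (ng ps : Ω → Finset (Pr s U)),
      Fintype.card U = g * ∏ m ∈ range t, (q (m + 1) * g) ∧
      HardDist s k t S r
        (τ + (t + 1) * ζ + ∑ m ∈ range t, 2 * (r (m + 1) : ℝ) / (q (m + 1) : ℝ) ^ 2)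
        U Ω ng ps := by
  sorry

/-- FINAL (numerics): from exists_hard and end_clique. -/
theorem neg_main (δ : ℝ) (hδ : 0 < δ) : ∃ C : ℝ, 0 < C ∧
    ∀ (n K t S : ℕ) (r : ℕ → ℕ), 2 ≤ n → n ≤ S →
      C * Real.log S ^ 2 * Real.log n ≤ K → K ≤ n →
      ∀ (Ω' : Type) [Fintype Ω'] (w : Ω' → ℝ) (f : Ω' → ℕ → SimpleGraph (Fin n) → Prop)
        (lev : Ω' → ℕ → ℕ) (A : Ω' → Finset ℕ) (inp : Ω' → ℕ → Finset ℕ) (out : Ω' → ℕ),
        (∀ ω, 0 ≤ w ω) → ∑ ω, w ω = 1 →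
        (∀ ω, Circ (fun (e : Fin n × Fin n) (G : SimpleGraph (Fin n)) => G.Adj e.1 e.2) S
          (f ω) (lev ω) (A ω) (inp ω)) →
        (∀ ω, ∀ i < S, lev ω i ≤ t) →
        (∀ ω m, 1 ≤ m → (reads (lev ω) (A ω) (inp ω) m).card ≤ r m) →
        (∀ ω, out ω < S) →
        (∀ G : SimpleGraph (Fin n), 1 / 2 + δ ≤
          ∑ ω, w ω * @ite ℝ (f ω (out ω) G ↔ ¬ G.CliqueFree K) (Classical.dec _) 1 0) →
        ((n : ℝ) - K) ^ 2 ≤ (C * Real.log S) ^ (8 * (t + 1)) *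
          ∏ m ∈ range t, (1 + (r (m + 1) : ℝ)) := by
  sorry

end Pool.Agent.Helper71.Neg.Stat
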