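import Pool.Agent.Helper71.Neg.Cells
import Pool.Agent.Helper6.NegApprox
import Pool.Agent.Helper6.NegTel

/-!
# One level of arbitrary gates
-/

set_option autoImplicit false

namespace Pool.Agent.Helper71.Neg

open Finset

/-- The number of pairs inside a vertex set. -/
lemma card_KK_ends {s : ℕ} {U : Type} [Fintype U] [DecidableEq U] (Z : Finset (Fin s × U)) :
    (KK (ends (s := s) (U := U)) Z).card ≤ Z.card ^ 2 := by
  rw [sq, ← card_product]
  refine card_le_card_of_injOn (fun e => (e.1.1, e.1.2)) ?_ ?_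
  · intro e he
    have := (mem_filter.1 he).2
    rw [mem_coe, mem_product]
    exact ⟨this (by simp [ends]), this (by simp [ends])⟩
  · intro e _ e' _ h
    exact Subtype.ext (Prod.ext (Prod.mk.inj h).1 (Prod.mk.inj h).2)

lemma card_ends {s : ℕ} {U : Type} [DecidableEq U] (e : Pr s U) : (ends e).card ≤ 2 := by
  unfold ends
  exact card_le_two

section

variable {s q g k l ρ S : ℕ} {U Ω : Type} [Fintype U] [DecidableEq U] [Fintype Ω]

/-- For a good cell and good blocks the circuit restricted to them has one level less. -/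
lemma good_restrict {M : ℕ} {Q : Type} [Fintype Q] [DecidableEq Q] {L : Fin M → Fin s → Q}
    (hL : IsCells L) (hl : 2 ≤ l) (hρ : 1 ≤ ρ) (hg : 1 ≤ g) (hk : 1 ≤ k) {τ : ℝ}
    (hτ : (l ^ 2 : ℝ) / k + S * ((l ^ 2 : ℝ) / k) ^ (ρ + 1) ≤ τ) (hτ2 : τ ≤ 1 / 2)
    {f : ℕ → Finset (Pr s (Q × (Fin g × U))) → Prop} {lev : ℕ → ℕ} {A : Finset ℕ}
    {inp : ℕ → Finset ℕ}
    (hC : Circ mem S f lev A inp) (D : Finset (Pr s (Q × (Fin g × U)))) (i : Fin M)
    (H : Finset (Pr s (Q × (Fin g × U))) → ℕ)
    (hH1 : ∀ (G G' : Finset (Pr s (Q × (Fin g × U)))) (j : ℕ), G ⊆ G' → j < S →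
      j ∈ reads lev A inp 1 → lev j = 0 → ¬ f j G → f j G' → H G + 1 ≤ H G')
    (hgood : ¬ Fintype.card (Pr s (Fin g × U) → Fin k) ≤
      2 * ∑ c' : Pr s (Fin g × U) → Fin k,
        (H (D ∪ (T c').image (fun e => cellE L (i, e))) - H D)) :
    ∃ B : (Fin s × U → Fin g) → Prop,
      (cnt B : ℝ) ≤ S * ((ρ : ℝ) / g) ^ (l + 1) * Fintype.card (Fin s × U → Fin g) ∧
      ∀ z, ¬ B z → Circ mem S
        (fun j (G : Finset (Pr s U)) => f j (D ∪ G.image (fun e => cellE L (i, zE z e))))
        (fun j => lev j - 1) (A.filter (fun j => 2 ≤ lev j)) inp := by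
  classical
  have hψ : Function.Injective (fun e : Pr s (Fin g × U) => cellE L (i, e)) := fun e e' h =>
    (Prod.mk.inj (cellE_injective hL h)).2
  have hC1 := hC.image D _ hψ
  obtain ⟨B, hB, hB2⟩ := Pool.Agent.Helper6.NegA.approx (V := Fin s × (Fin g × U)) (E := Pr s (Fin g × U))
    (ΩX := Fin s × U → Fin g) ends l ρ (l ^ 2) S g k
    (fun e => (card_ends e).trans hl) hρ hg hk
    (fun Z hZ => (card_KK_ends Z).trans (Nat.pow_le_pow_left hZ 2)) Xz
    (fun Z => Xz_spread Z)
    (fun j (G : Finset (Pr s (Fin g × U))) => f j (D ∪ G.image (fun e => cellE L (i, e))))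
    (fun j => lev j = 0)
    (fun j hj hj0 => hC1.level_zero hj hj0)
  refine ⟨B, hB, fun z hz => ?_⟩
  have hinj : Function.Injective (fun e : Pr s U => cellE L (i, zE z e)) := fun e e' h =>
    zE_injective z (hψ h)
  have hconst : ∀ j' < S, j' ∈ reads lev A inp 1 → lev j' = 0 →
      ∀ G G' : Finset (Pr s U), f j' (D ∪ G.image (fun e => cellE L (i, zE z e))) →
        f j' (D ∪ G'.image (fun e => cellE L (i, zE z e))) := by
    intro j' hj'S hread hj'0 G G' hG
    have hmono := hC.mono j' hj'S hj'0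
    by_cases hA : f j' D
    · exact hmono _ _ subset_union_left hA
    · exfalso
      -- the input rejects the whole block
      have hrej : ¬ f j' (D ∪ (KK ends (Xz z)).image (fun e => cellE L (i, e))) := by
        rcases hB2 j' hj'S hj'0 with h | h
        · exact h z hz
        · exfalso
          apply hgood
          have h1 : cnt (fun c : Pr s (Fin g × U) → Fin k =>
              f j' (D ∪ (T c).image (fun e => cellE L (i, e)))) ≤
              ∑ c' : Pr s (Fin g × U) → Fin k,
                (H (D ∪ (T c').image (fun e => cellE L (i, e))) - H D) := by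
            rw [cnt_eq_sum]
            refine sum_le_sum (fun c' _ => ?_)
            split_ifs with hc
            · have := hH1 D (D ∪ (T c').image (fun e => cellE L (i, e))) j' subset_union_left hj'S
                hread hj'0 hA hc
              omega
            · exact Nat.zero_le _
          have h2 : (1 / 2 : ℝ) * (Fintype.card (Pr s (Fin g × U) → Fin k) : ℝ) ≤
              (cnt (fun c : Pr s (Fin g × U) → Fin k =>
                f j' (D ∪ (T c).image (fun e => cellE L (i, e)))) : ℝ) := by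
            refine le_trans ?_ h
            have h3 : ((l ^ 2 : ℕ) : ℝ) = (l ^ 2 : ℝ) := by push_cast; rfl
            rw [h3]
            gcongr
            linarith
          have h4 : (Fintype.card (Pr s (Fin g × U) → Fin k) : ℝ) ≤
              ((2 * ∑ c' : Pr s (Fin g × U) → Fin k,
                (H (D ∪ (T c').image (fun e => cellE L (i, e))) - H D) : ℕ) : ℝ) := by
            have h5 : ((cnt (fun c : Pr s (Fin g × U) → Fin k =>
                f j' (D ∪ (T c).image (fun e => cellE L (i, e)))) : ℕ) : ℝ) ≤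
                ((∑ c' : Pr s (Fin g × U) → Fin k,
                  (H (D ∪ (T c').image (fun e => cellE L (i, e))) - H D) : ℕ) : ℝ) := by
              exact_mod_cast h1
            rw [Nat.cast_mul, Nat.cast_ofNat]
            linarith
          exact_mod_cast h4
      apply hrej
      refine hmono _ _ ?_ hG
      refine union_subset_union_right ?_
      have h6 : G.image (fun e => cellE L (i, zE z e)) =
          (G.image (zE z)).image (fun e => cellE L (i, e)) := by
        rw [image_image]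
        rfl
      rw [h6]
      exact image_subset_image (zE_subset z G)
  refine (hC.image D _ hinj).shift (fun j hj hjn hj1 => ?_)
  obtain ⟨h7, h8⟩ := hC.any j hj hjn
  have h9 : ∀ G G' : Finset (Pr s U), f j (D ∪ G.image (fun e => cellE L (i, zE z e))) →
      f j (D ∪ G'.image (fun e => cellE L (i, zE z e))) := by
    intro G G' hG
    refine (h8 _ _ (fun j' hj' => ?_)).1 hG
    have h10 := h7 j' hj'
    have h11 : lev j' = 0 := by omega
    have h12 : j' < S := lt_trans h10.1 hj
    have h13 : j' ∈ reads lev A inp 1 :=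
      mem_biUnion.2 ⟨j, mem_filter.2 ⟨hjn, hj1⟩, hj'⟩
    exact ⟨hconst j' h12 h13 h11 G G', hconst j' h12 h13 h11 G' G⟩
  exact ⟨f j (D ∪ (∅ : Finset (Pr s U)).image (fun e => cellE L (i, zE z e))),
    fun G => ⟨h9 G ∅, h9 ∅ G⟩⟩

/-- The number of true gates among those read by the arbitrary gates of level `1`. -/
noncomputable def Hc {E : Type} (S : ℕ) (f : ℕ → Finset E → Prop) (lev : ℕ → ℕ) (A : Finset ℕ)
    (inp : ℕ → Finset ℕ) (G : Finset E) : ℕ := by
  classical
  exact ((reads lev A inp 1).filter (fun j => j < S ∧ lev j = 0 ∧ f j G)).card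

lemma Hc_le {E : Type} {S r : ℕ} {f : ℕ → Finset E → Prop} {lev : ℕ → ℕ} {A : Finset ℕ}
    {inp : ℕ → Finset ℕ} (h : (reads lev A inp 1).card ≤ r) (G : Finset E) :
    Hc S f lev A inp G ≤ r := by
  classical
  unfold Hc
  exact (card_filter_le _ _).trans h

lemma Hc_mono {E : Type} {S : ℕ} {f : ℕ → Finset E → Prop} {lev : ℕ → ℕ} {A : Finset ℕ}
    {inp : ℕ → Finset ℕ} (hC : Circ mem S f lev A inp) {G G' : Finset E} (hG : G ⊆ G') :
    Hc S f lev A inp G ≤ Hc S f lev A inp G' := by
  classical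
  unfold Hc
  refine card_le_card (fun j hj => ?_)
  rw [mem_filter] at hj ⊢
  exact ⟨hj.1, hj.2.1, hj.2.2.1, hC.mono j hj.2.1 hj.2.2.1 G G' hG hj.2.2.2⟩

lemma Hc_succ {E : Type} {S : ℕ} {f : ℕ → Finset E → Prop} {lev : ℕ → ℕ} {A : Finset ℕ}
    {inp : ℕ → Finset ℕ} (hC : Circ mem S f lev A inp) {G G' : Finset E} (hG : G ⊆ G') {j : ℕ}
    (hj : j < S) (hn : j ∈ reads lev A inp 1) (h0 : lev j = 0) (hf : ¬ f j G) (hf' : f j G') :
    Hc S f lev A inp G + 1 ≤ Hc S f lev A inp G' := by
  classical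
  unfold Hc
  refine card_lt_card (Finset.ssubset_iff_subset_ne.2 ⟨fun j hj => ?_, fun h => ?_⟩)
  · rw [mem_filter] at hj ⊢
    exact ⟨hj.1, hj.2.1, hj.2.2.1, hC.mono j hj.2.1 hj.2.2.1 G G' hG hj.2.2.2⟩
  · have h2 : j ∈ (reads lev A inp 1).filter (fun j => j < S ∧ lev j = 0 ∧ f j G') := by
      rw [mem_filter]
      exact ⟨hn, hj, h0, hf'⟩
    rw [← h, mem_filter] at h2
    exact hf h2.2.2.2

/-- The seeds of the next level. -/
abbrev NS (s k g M : ℕ) (U Ω : Type) : Type :=
  (Fin M × (Fin M → Pr s (Fin g × U) → Fin k)) × ((Fin s × U → Fin g) × Ω)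

/-- One level of NOT gates. -/
theorem step_hard {t : ℕ} (hq : 1 ≤ q) {L : Fin (q * q) → Fin s → ZMod q} [Fintype (ZMod q)]
    [DecidableEq (ZMod q)] (hL : IsCells L) (hl : 2 ≤ l) (hρ : 1 ≤ ρ) (hg : 1 ≤ g) (hk : 1 ≤ k)
    {τ ζ err : ℝ}
    (hτ : (l ^ 2 : ℝ) / k + S * ((l ^ 2 : ℝ) / k) ^ (ρ + 1) ≤ τ) (hτ2 : τ ≤ 1 / 2)
    (hζ : S * ((ρ : ℝ) / g) ^ (l + 1) ≤ ζ) (herr : 0 ≤ err) {r : ℕ → ℕ}
    {ng ps : Ω → Finset (Pr s U)}
    (D : HardDist s k t S (fun m => r (m + 1)) err U Ω ng ps) :
    HardDist s k (t + 1) S r (err + ζ + 2 * (r 1 : ℝ) / (q : ℝ) ^ 2) (ZMod q × (Fin g × U))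
      (NS s k g (q * q) U Ω)
      (fun x => nx L x.1.1 x.1.2 x.2.1 (ng x.2.2)) (fun x => nx L x.1.1 x.1.2 x.2.1 (ps x.2.2)) := by
  classical
  constructor
  · exact spread_nx hk hL D.spread
  · rintro ⟨⟨i, c⟩, ⟨z, ω⟩⟩
    obtain ⟨y, hy⟩ := D.clique ω
    refine ⟨fun a => (L i a, (z (a, y a), y a)), fun a b hab => ?_⟩
    refine mem_union_right _ ?_
    exact mem_image.2 ⟨_, hy a b hab, rfl⟩
  · intro f lev A inp o hC hlev hr ho
    set Col : Type := Pr s (Fin g × U) → Fin k with hCol
    set Zt : Type := Fin s × U → Fin g with hZt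
    set TB : Fin (q * q) × (Fin (q * q) → Col) → Prop := fun p =>
      Fintype.card Col ≤ 2 * ∑ c' : Col,
        (Hc S f lev A inp (stA L p.1 p.2 ∪ (T c').image (fun e => cellE L (p.1, e))) -
          Hc S f lev A inp (stA L p.1 p.2)) with hTB
    have h1 : cnt TB ≤ 2 * r 1 * Fintype.card Col ^ (q * q) :=
      Pool.Agent.Helper6.NegT.telescope (Col := Col) (Γ := Finset (Pr s (ZMod q × (Fin g × U)))) (q * q) (r 1)
        (fun m c => stA L m c) (fun i G c' => G ∪ (T c').image (fun e => cellE L (i, e)))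
        (Hc S f lev A inp) (Hc_le (hr 1 le_rfl)) (fun m c c' h => stA_congr L m c c' h)
        (fun i c => stA_succ L i c) (fun i G c' => Hc_mono hC subset_union_left)
    have h2 : ∀ p : Fin (q * q) × (Fin (q * q) → Col), ∃ B : Zt → Prop, ¬ TB p →
        ((cnt B : ℝ) ≤ S * ((ρ : ℝ) / g) ^ (l + 1) * Fintype.card Zt ∧
        ∀ z, ¬ B z → Circ mem S
          (fun j (G : Finset (Pr s U)) => f j (stA L p.1 p.2 ∪
            G.image (fun e => cellE L (p.1, zE z e))))
          (fun j => lev j - 1) (A.filter (fun j => 2 ≤ lev j)) inp) := by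
      intro p
      by_cases hp : TB p
      · exact ⟨fun _ => True, fun h => absurd hp h⟩
      · obtain ⟨B, hB1, hB2⟩ := good_restrict hL hl hρ hg hk hτ hτ2 hC (stA L p.1 p.2) p.1
          (Hc S f lev A inp)
          (fun G G' j hG hj hn h0 hf hf' => Hc_succ hC hG hj hn h0 hf hf') hp
        exact ⟨B, fun _ => ⟨hB1, hB2⟩⟩
    choose B hB using h2
    clear hTB
    clear_value TB
    -- good seeds
    have h3 : ∀ (p : Fin (q * q) × (Fin (q * q) → Col)) (z : Zt),
        (1 - err) * (Fintype.card Ω : ℝ) ≤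
          (cnt (fun ω => f o (nx L p.1 p.2 z (ng ω))) : ℝ) +
          (cnt (fun ω => ¬ f o (nx L p.1 p.2 z (ps ω))) : ℝ) +
          (Fintype.card Ω : ℝ) * (if TB p ∨ B p z then 1 else 0) := by
      intro p z
      by_cases hb : TB p ∨ B p z
      · rw [if_pos hb]
        have h0 : (0 : ℝ) ≤ (Fintype.card Ω : ℝ) := Nat.cast_nonneg _
        have h5 : (0 : ℝ) ≤ (cnt (fun ω => f o (nx L p.1 p.2 z (ng ω))) : ℝ) := Nat.cast_nonneg _
        have h6 : (0 : ℝ) ≤ (cnt (fun ω => ¬ f o (nx L p.1 p.2 z (ps ω))) : ℝ) :=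
          Nat.cast_nonneg _
        nlinarith
      · rw [if_neg hb, mul_zero, add_zero]
        rw [not_or] at hb
        have h7 := (hB p hb.1).2 z hb.2
        refine D.hard _ _ _ _ o h7 (fun i hi => ?_) (fun m hm => ?_) ho
        · have := hlev i hi
          show lev i - 1 ≤ t
          omega
        · refine le_trans (card_le_card ?_) (hr (m + 1) (by omega))
          refine biUnion_subset_biUnion_of_subset_left _ (fun j hj => ?_)
          rw [mem_filter, mem_filter] at hj
          rw [mem_filter]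
          refine ⟨hj.1.1, ?_⟩
          have h20 : lev j - 1 = m := hj.2
          have h21 : 2 ≤ lev j := hj.1.2
          omega
    -- the number of bad seeds
    have h4 : (cnt (fun x : (Fin (q * q) × (Fin (q * q) → Col)) × Zt => TB x.1 ∨ B x.1 x.2) : ℝ) ≤
        (ζ + 2 * (r 1 : ℝ) / (q : ℝ) ^ 2) *
          ((Fintype.card (Fin (q * q) × (Fin (q * q) → Col)) : ℝ) * Fintype.card Zt) := by
      have h5 : cnt (fun x : (Fin (q * q) × (Fin (q * q) → Col)) × Zt => TB x.1 ∨ B x.1 x.2) ≤
          cnt (fun x : (Fin (q * q) × (Fin (q * q) → Col)) × Zt => TB x.1) +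
          cnt (fun x : (Fin (q * q) × (Fin (q * q) → Col)) × Zt => ¬ TB x.1 ∧ B x.1 x.2) := by
        refine le_trans (cnt_le_cnt (fun x hx => ?_)) (cnt_or_le _ _)
        by_cases hx1 : TB x.1
        · exact Or.inl hx1
        · exact Or.inr ⟨hx1, hx.resolve_left hx1⟩
      have h6 : (cnt (fun x : (Fin (q * q) × (Fin (q * q) → Col)) × Zt => ¬ TB x.1 ∧ B x.1 x.2) : ℝ)
          ≤ ζ * ((Fintype.card (Fin (q * q) × (Fin (q * q) → Col)) : ℝ) * Fintype.card Zt) := by
        rw [cnt_fiber, Nat.cast_sum]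
        calc _ ≤ ∑ _p : Fin (q * q) × (Fin (q * q) → Col), ζ * (Fintype.card Zt : ℝ) := by
              refine sum_le_sum (fun p _ => ?_)
              have hζ0 : 0 ≤ ζ := le_trans (by positivity) hζ
              by_cases hp : TB p
              · rw [cnt_false' (fun z hz => hz.1 hp)]
                simp only [Nat.cast_zero]
                positivity
              · have h7 : cnt (fun z => ¬ TB p ∧ B p z) ≤ cnt (B p) :=
                  cnt_le_cnt (fun z hz => hz.2)
                have h8 : (cnt (fun z => ¬ TB p ∧ B p z) : ℝ) ≤ (cnt (B p) : ℝ) := by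
                  exact_mod_cast h7
                refine h8.trans ((hB p hp).1.trans ?_)
                gcongr
          _ = _ := by
              rw [sum_const, card_univ, nsmul_eq_mul]
              ring
      have h7 : (cnt (fun x : (Fin (q * q) × (Fin (q * q) → Col)) × Zt => TB x.1) : ℝ) ≤
          2 * (r 1 : ℝ) / (q : ℝ) ^ 2 *
          ((Fintype.card (Fin (q * q) × (Fin (q * q) → Col)) : ℝ) * Fintype.card Zt) := by
        rw [cnt_fst, Nat.cast_mul]
        have hq0 : (q : ℝ) ≠ 0 := by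
          have : (1 : ℝ) ≤ q := by exact_mod_cast hq
          linarith
        have h8 : (cnt TB : ℝ) ≤ 2 * (r 1 : ℝ) * (Fintype.card Col : ℝ) ^ (q * q) := by
          exact_mod_cast h1
        have h8' : (Fintype.card (Fin (q * q) × (Fin (q * q) → Col)) : ℝ) =
            (q : ℝ) ^ 2 * (Fintype.card Col : ℝ) ^ (q * q) := by
          rw [Fintype.card_prod, Fintype.card_fin, Fintype.card_fun, Fintype.card_fin]
          push_cast
          ring
        have h9 : 2 * (r 1 : ℝ) / (q : ℝ) ^ 2 *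
            ((Fintype.card (Fin (q * q) × (Fin (q * q) → Col)) : ℝ) * (Fintype.card Zt : ℝ)) =
            2 * (r 1 : ℝ) * (Fintype.card Col : ℝ) ^ (q * q) * (Fintype.card Zt : ℝ) := by
          rw [h8']
          field_simp
        rw [h9]
        gcongr
      calc (cnt (fun x : (Fin (q * q) × (Fin (q * q) → Col)) × Zt => TB x.1 ∨ B x.1 x.2) : ℝ)
          ≤ (cnt (fun x : (Fin (q * q) × (Fin (q * q) → Col)) × Zt => TB x.1) : ℝ) +
            (cnt (fun x : (Fin (q * q) × (Fin (q * q) → Col)) × Zt => ¬ TB x.1 ∧ B x.1 x.2) : ℝ) := by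
            exact_mod_cast h5
        _ ≤ _ := by
            rw [add_mul]
            linarith
    -- summation
    have h10 : ∀ P : Finset (Pr s (ZMod q × (Fin g × U))) → Prop, ∀ gs : Ω → Finset (Pr s U),
        (cnt (fun x : NS s k g (q * q) U Ω => P (nx L x.1.1 x.1.2 x.2.1 (gs x.2.2))) : ℝ) =
        ∑ p : Fin (q * q) × (Fin (q * q) → Col), ∑ z : Zt,
          (cnt (fun ω => P (nx L p.1 p.2 z (gs ω))) : ℝ) := by
      intro P gs
      rw [cnt_fiber, Nat.cast_sum]
      refine sum_congr rfl (fun p _ => ?_)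
      rw [cnt_fiber, Nat.cast_sum]
    have h11 := sum_le_sum (fun (p : Fin (q * q) × (Fin (q * q) → Col)) (_ : p ∈ univ) =>
      sum_le_sum (fun (z : Zt) (_ : z ∈ univ) => h3 p z))
    simp only [sum_add_distrib] at h11
    rw [← h10 (fun G => f o G) ng, ← h10 (fun G => ¬ f o G) ps] at h11
    have h12 : ∑ p : Fin (q * q) × (Fin (q * q) → Col), ∑ z : Zt,
        (Fintype.card Ω : ℝ) * (if TB p ∨ B p z then 1 else 0) =
        (Fintype.card Ω : ℝ) *
          (cnt (fun x : (Fin (q * q) × (Fin (q * q) → Col)) × Zt => TB x.1 ∨ B x.1 x.2) : ℝ) := by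
      rw [cnt_fiber, Nat.cast_sum, mul_sum]
      refine sum_congr rfl (fun p _ => ?_)
      rw [cnt_eq_sum (fun z => TB p ∨ B p z), Nat.cast_sum, mul_sum]
      refine sum_congr rfl (fun z _ => ?_)
      push_cast
      rfl
    rw [h12] at h11
    simp only [sum_const, card_univ, nsmul_eq_mul] at h11
    have h13 : (Fintype.card (NS s k g (q * q) U Ω) : ℝ) =
        (Fintype.card (Fin (q * q) × (Fin (q * q) → Col)) : ℝ) *
          ((Fintype.card Zt : ℝ) * (Fintype.card Ω : ℝ)) := by
      have h15 : Fintype.card (NS s k g (q * q) U Ω) =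
          Fintype.card (Fin (q * q) × (Fin (q * q) → Col)) *
            (Fintype.card Zt * Fintype.card Ω) := by
        rw [← Fintype.card_prod Zt Ω, ← Fintype.card_prod]
      rw [h15]
      push_cast
      rfl
    rw [h13]
    have h14 := mul_le_mul_of_nonneg_left h4 (Nat.cast_nonneg (Fintype.card Ω) : (0 : ℝ) ≤ _)
    generalize (Fintype.card (Fin (q * q) × (Fin (q * q) → Col)) : ℝ) = cP at h11 h14 ⊢
    generalize (Fintype.card Zt : ℝ) = cZ at h11 h14 ⊢
    generalize (Fintype.card Ω : ℝ) = cO at h11 h14 ⊢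
    generalize 2 * (r 1 : ℝ) / (q : ℝ) ^ 2 = cr at h11 h14 ⊢
    have h16 : (1 - (err + ζ + cr)) * (cP * (cZ * cO)) =
        cP * (cZ * ((1 - err) * cO)) - cO * ((ζ + cr) * (cP * cZ)) := by ring
    rw [h16]
    linarith

end

end Pool.Agent.Helper71.Neg
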